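import Pool.Agent.TriSup.Upper

/-!
# The upper bound in the form `q ^ q`
-/

namespace Pool.Agent.TriSup

open Filter Pool.Agent.TriGrow

private lemma upperPow_aux (q : ℕ) (hq : 3 ≤ q) : 3 * q.factorial ≤ q ^ q := by
  induction q, hq using Nat.le_induction with
  | base => decide
  | succ q hq ih =>
    rw [Nat.factorial_succ, pow_succ']
    calc 3 * ((q + 1) * q.factorial) = (q + 1) * (3 * q.factorial) := by ring
      _ ≤ (q + 1) * q ^ q := Nat.mul_le_mul_left _ ih
      _ ≤ (q + 1) * (q + 1) ^ q :=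
        Nat.mul_le_mul_left _ (Nat.pow_le_pow_left (Nat.le_succ q) q)

/-- `r(3; q) ≤ q ^ q` for `q ≥ 3`. -/
theorem r3_le_pow (q : ℕ) (hq : 3 ≤ q) : r3 q ≤ q ^ q :=
  (r3_le q (by omega)).trans (upperPow_aux q hq)

end Pool.Agent.TriSup
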