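import Pool.Agent.TriGrow.Ramsey

/-!
# From a family of bounds to the growth rate
-/

namespace Pool.Agent.TriSup

open Filter Pool.Agent.TriGrow

/-- If for every `δ > 0` and all large `q` there are `w, m` with `w m ≤ q`, `w m ≥ (1 - δ) q`,
`w ≥ q^(α - δ)` and `(w!)^m ≤ r(3; w m) q^(δ q)`, then `r(3; q) ≥ q^((α - ε) q)` for all large
`q`. -/
theorem growth_of_family (α : ℝ) (hα : 0 < α)
    (h : ∀ δ : ℝ, 0 < δ → ∀ᶠ q : ℕ in atTop, ∃ w m : ℕ, w * m ≤ q ∧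
      (1 - δ) * (q : ℝ) ≤ (w : ℝ) * m ∧ (q : ℝ) ^ (α - δ) ≤ w ∧
      ((w.factorial : ℝ) ^ m) ≤ (r3 (w * m) : ℝ) * (q : ℝ) ^ (δ * q)) (ε : ℝ) (hε : 0 < ε) :
    ∀ᶠ q : ℕ in atTop, (q : ℝ) ^ ((α - ε) * q) ≤ (r3 q : ℝ) := by
  sorry

end Pool.Agent.TriSup
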