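import Pool.Agent.TriSup.Defs

/-!
# Large codes (Gilbert bound)
-/

namespace Pool.Agent.TriSup

open Finset

/-- There is a code of length `m` over `k` letters with minimum distance `l` and at least
`k ^ m / (m k) ^ l` words. -/
theorem exists_code (m k l : ℕ) (hm : 1 ≤ m) (hk : 1 ≤ k) :
    ∃ Z : Finset (Fin m → ℕ), IsCode m k l Z ∧ k ^ m ≤ Z.card * (m * k) ^ l := by
  classical
  set W : Finset (Fin m → ℕ) := Fintype.piFinset fun _ : Fin m => range k with hW
  have hWmem : ∀ v : Fin m → ℕ, v ∈ W ↔ ∀ i, v i < k := by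
    intro v
    simp [hW, Fintype.mem_piFinset]
  have hWcard : W.card = k ^ m := by
    simp [hW, Fintype.card_piFinset]
  have hne : (W.powerset.filter fun Z => IsCode m k l Z).Nonempty := by
    refine ⟨∅, ?_⟩
    simp [IsCode]
  obtain ⟨Z, hZ, hmax⟩ := Finset.exists_max_image _ (fun Z : Finset (Fin m → ℕ) => Z.card) hne
  rw [mem_filter, mem_powerset] at hZ
  obtain ⟨hZW, hZc⟩ := hZ
  refine ⟨Z, hZc, ?_⟩
  -- every word is close to a word of `Z`
  have hclose : ∀ v ∈ W, ∃ z ∈ Z, (univ.filter fun i => z i ≠ v i).card ≤ l := by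
    intro v hv
    by_cases hvZ : v ∈ Z
    · exact ⟨v, hvZ, by simp⟩
    by_contra hcon
    push Not at hcon
    have h1 : IsCode m k l (insert v Z) := by
      refine ⟨?_, ?_⟩
      · intro z hz i
        rw [mem_insert] at hz
        rcases hz with rfl | hz
        · exact (hWmem _).1 hv i
        · exact hZc.1 z hz i
      · intro z hz z' hz' hzz
        rw [mem_insert] at hz hz'
        rcases hz with rfl | hz
        · rcases hz' with rfl | hz'
          · exact absurd rfl hzz
          · have h2 := (hcon z' hz').le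
            have h3 : (univ.filter fun i => z i ≠ z' i) = univ.filter fun i => z' i ≠ z i := by
              ext i
              simp [ne_comm]
            rw [h3]
            exact h2
        · rcases hz' with rfl | hz'
          · exact (hcon z hz).le
          · exact hZc.2 z hz z' hz' hzz
    have h2 := hmax (insert v Z) (by
      rw [mem_filter, mem_powerset]
      exact ⟨insert_subset hv hZW, h1⟩)
    rw [card_insert_of_notMem hvZ] at h2
    omega
  set Φ : (Fin m → ℕ) × (Fin l → Fin m × Fin k) → (Fin m → ℕ) := fun p i =>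
    if h : ∃ t, (p.2 t).1 = i then ((p.2 h.choose).2 : ℕ) else p.1 i with hΦ
  have hsub : W ⊆ (Z ×ˢ (univ : Finset (Fin l → Fin m × Fin k))).image Φ := by
    intro v hv
    obtain ⟨z, hz, hzv⟩ := hclose v hv
    set D := univ.filter fun i => z i ≠ v i with hD
    have hcard : Fintype.card D ≤ Fintype.card (Fin l) := by
      simpa using hzv
    obtain ⟨e⟩ := Function.Embedding.nonempty_of_card_le hcard
    set f : Fin l → Fin m := Function.extend e (fun d => d.1) (fun _ => ⟨0, hm⟩) with hf
    have hfD : ∀ i ∈ D, ∃ t, f t = i := by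
      intro i hi
      exact ⟨e ⟨i, hi⟩, by rw [hf, e.injective.extend_apply]⟩
    rw [mem_image]
    refine ⟨(z, fun t => (f t, ⟨v (f t), (hWmem v).1 hv (f t)⟩)), ?_, ?_⟩
    · rw [mem_product]
      exact ⟨hz, mem_univ _⟩
    · funext i
      rw [hΦ]
      by_cases h : ∃ t, f t = i
      · have h' : ∃ t, (((fun t => (f t, (⟨v (f t), (hWmem v).1 hv (f t)⟩ : Fin k))) :
            Fin l → Fin m × Fin k) t).1 = i := h
        simp only [dif_pos h]
        exact congrArg v h.choose_spec
      · simp only [dif_neg h]
        by_contra hzi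
        exact h (hfD i (by rw [hD, mem_filter]; exact ⟨mem_univ _, hzi⟩))
  calc k ^ m = W.card := hWcard.symm
    _ ≤ ((Z ×ˢ (univ : Finset (Fin l → Fin m × Fin k))).image Φ).card := card_le_card hsub
    _ ≤ (Z ×ˢ (univ : Finset (Fin l → Fin m × Fin k))).card := card_image_le
    _ = Z.card * (m * k) ^ l := by
      rw [card_product]
      congr 1
      simp

end Pool.Agent.TriSup
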