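import Pool.Agent.TriSup.Defs2

/-!
# Large codes (Gilbert bound), general alphabets
-/

namespace Pool.Agent.TriSup

open Finset

/-- There is a large code at every level. -/
theorem exists_code2 {m : ℕ} (A : Finset (Fin m)) (ρ : Fin m → ℕ) (k l : ℕ) (hm : 1 ≤ m)
    (hρ : ∀ i ∈ A, ρ i < k) (hk : 1 ≤ k) :
    ∃ Z : Finset (Fin m → ℕ), IsCode2 A ρ l Z ∧
      ∏ i ∈ A, (ρ i + 1) ≤ Z.card * (m * k) ^ l := by
  classical
  set W : Finset (Fin m → ℕ) :=
    Fintype.piFinset fun i : Fin m => if i ∈ A then range (ρ i + 1) else {ρ i} with hW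
  have hWmem : ∀ v : Fin m → ℕ, v ∈ W ↔ (∀ i ∈ A, v i ≤ ρ i) ∧ ∀ i ∉ A, v i = ρ i := by
    intro v
    rw [hW, Fintype.mem_piFinset]
    constructor
    · intro h
      refine ⟨fun i hi => ?_, fun i hi => ?_⟩
      · have h1 := h i
        rw [if_pos hi, mem_range] at h1
        omega
      · have h1 := h i
        rw [if_neg hi, mem_singleton] at h1
        exact h1
    · rintro ⟨h1, h2⟩ i
      by_cases hi : i ∈ A
      · rw [if_pos hi, mem_range]
        have := h1 i hi
        omega
      · rw [if_neg hi, mem_singleton]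
        exact h2 i hi
  have hWcard : W.card = ∏ i ∈ A, (ρ i + 1) := by
    rw [hW, Fintype.card_piFinset]
    have h1 : ∀ i : Fin m, (if i ∈ A then range (ρ i + 1) else {ρ i}).card =
        if i ∈ A then ρ i + 1 else 1 := by
      intro i
      by_cases hi : i ∈ A
      · rw [if_pos hi, if_pos hi, card_range]
      · rw [if_neg hi, if_neg hi, card_singleton]
    rw [prod_congr rfl fun i _ => h1 i, prod_ite_mem, univ_inter]
  have hne : (W.powerset.filter fun Z => IsCode2 A ρ l Z).Nonempty := by
    refine ⟨∅, ?_⟩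
    simp [IsCode2]
  obtain ⟨Z, hZ, hmax⟩ := Finset.exists_max_image _ (fun Z : Finset (Fin m → ℕ) => Z.card) hne
  rw [mem_filter, mem_powerset] at hZ
  obtain ⟨hZW, hZc⟩ := hZ
  refine ⟨Z, hZc, ?_⟩
  -- every word is close to a word of `Z`
  have hclose : ∀ v ∈ W, ∃ z ∈ Z, (univ.filter fun i => z i ≠ v i).card ≤ l := by
    intro v hv
    by_cases hvZ : v ∈ Z
    · exact ⟨v, hvZ, by simp⟩
    by_contra hcon
    push Not at hcon
    have h1 : IsCode2 A ρ l (insert v Z) := by
      refine ⟨?_, ?_⟩
      · intro z hz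
        rw [mem_insert] at hz
        rcases hz with rfl | hz
        · exact (hWmem _).1 hv
        · exact hZc.1 z hz
      · intro z hz z' hz' hzz
        rw [mem_insert] at hz hz'
        rcases hz with rfl | hz
        · rcases hz' with rfl | hz'
          · exact absurd rfl hzz
          · have h2 := (hcon z' hz').le
            have h3 : (univ.filter fun i => z i ≠ z' i) = univ.filter fun i => z' i ≠ z i := by
              ext i
              simp [ne_comm]
            rw [h3]
            exact h2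
        · rcases hz' with rfl | hz'
          · exact (hcon z hz).le
          · exact hZc.2 z hz z' hz' hzz
    have h2 := hmax (insert v Z) (by
      rw [mem_filter, mem_powerset]
      exact ⟨insert_subset hv hZW, h1⟩)
    rw [card_insert_of_notMem hvZ] at h2
    omega
  set Φ : (Fin m → ℕ) × (Fin l → Fin m × Fin k) → (Fin m → ℕ) := fun p i =>
    if h : ∃ t, (p.2 t).1 = i ∧ i ∈ A then ((p.2 h.choose).2 : ℕ) else p.1 i with hΦ
  have hsub : W ⊆ (Z ×ˢ (univ : Finset (Fin l → Fin m × Fin k))).image Φ := by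
    intro v hv
    obtain ⟨z, hz, hzv⟩ := hclose v hv
    have hv' := (hWmem v).1 hv
    have hz' := hZc.1 z hz
    set D := univ.filter fun i => z i ≠ v i with hD
    have hDA : ∀ i ∈ D, i ∈ A := by
      intro i hi
      by_contra hiA
      rw [hD, mem_filter] at hi
      exact hi.2 ((hz'.2 i hiA).trans (hv'.2 i hiA).symm)
    have hcard : Fintype.card D ≤ Fintype.card (Fin l) := by
      simpa using hzv
    obtain ⟨e⟩ := Function.Embedding.nonempty_of_card_le hcard
    set f : Fin l → Fin m := Function.extend e (fun d => d.1) (fun _ => ⟨0, hm⟩) with hf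
    have hfD : ∀ i ∈ D, ∃ t, f t = i := by
      intro i hi
      exact ⟨e ⟨i, hi⟩, by rw [hf, e.injective.extend_apply]⟩
    have hmod : ∀ i ∈ A, v i % k = v i := fun i hi =>
      Nat.mod_eq_of_lt (lt_of_le_of_lt (hv'.1 i hi) (hρ i hi))
    rw [mem_image]
    refine ⟨(z, fun t => (f t, ⟨v (f t) % k, Nat.mod_lt _ hk⟩)), ?_, ?_⟩
    · rw [mem_product]
      exact ⟨hz, mem_univ _⟩
    · funext i
      rw [hΦ]
      by_cases h : ∃ t, f t = i ∧ i ∈ A
      · simp only [dif_pos h]
        obtain ⟨h1, h2⟩ := h.choose_spec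
        rw [h1]
        exact hmod i h2
      · simp only [dif_neg h]
        by_contra hzi
        have hiD : i ∈ D := by rw [hD, mem_filter]; exact ⟨mem_univ _, hzi⟩
        obtain ⟨t, ht⟩ := hfD i hiD
        exact h ⟨t, ht, hDA i hiD⟩
  calc ∏ i ∈ A, (ρ i + 1) = W.card := hWcard.symm
    _ ≤ ((Z ×ˢ (univ : Finset (Fin l → Fin m × Fin k))).image Φ).card := card_le_card hsub
    _ ≤ (Z ×ˢ (univ : Finset (Fin l → Fin m × Fin k))).card := card_image_le
    _ = Z.card * (m * k) ^ l := by
      rw [card_product]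
      congr 1
      simp

end Pool.Agent.TriSup
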