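import Pool.Agent.TriSup.Defs

/-!
# The recursive construction
-/

namespace Pool.Agent.TriSup

open Finset

/-- The `p`-th natural number different from `z`. -/
def skip (z p : ℕ) : ℕ := if p < z then p else p + 1

/-- The inverse of `skip z`. -/
def unskip (z p : ℕ) : ℕ := if p < z then p else p - 1

lemma skip_ne (z p : ℕ) : skip z p ≠ z := by unfold skip; split_ifs <;> omega

lemma unskip_skip (z p : ℕ) : unskip z (skip z p) = p := by
  unfold skip unskip; split_ifs <;> omega

lemma skip_lt {z p w : ℕ} (h : p < w) : skip z p < w + 1 := by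
  unfold skip; split_ifs <;> omega

lemma unskip_lt {z p w : ℕ} (hz : z < w + 1) (h : p < w + 1) (hne : p ≠ z) :
    unskip z p < w := by
  unfold unskip; split_ifs <;> omega

lemma skip_inj {z p p' : ℕ} (h : skip z p = skip z p') : p = p' := by
  rw [← unskip_skip z p, h, unskip_skip]

variable {m w : ℕ}

/-- The symbols of the point `(z, x)` at the next level. -/
def nval {X : Type} (w : ℕ) (val : X → Fin m → ℕ → ℕ) (z : Fin m → ℕ) (x : X) (i : Fin m)
    (p : ℕ) : ℕ := if p = z i then w else val x i (unskip (z i) p)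

/-- `c` is the coordinate of a player who guesses right, for points in the blocks `z` (left
team) and `z'` (right team), where `x`, `y` are the hats of the two teams. -/
def Right (gL gR : (Fin m → ℕ) → Fin m → ℕ) (z z' x y : Fin m → ℕ) (c : Fin m × ℕ) : Prop :=
  z c.1 ≠ z' c.1 ∧ ((c.2 = z' c.1 ∧ x c.1 = gL y c.1) ∨ (c.2 = z c.1 ∧ y c.1 = gR x c.1))

/-- One step of the recursion. -/
theorem step {X : Type} (S : Sys m w X) (Z : Finset (Fin m → ℕ)) (l : ℕ)
    (hZ : IsCode m (w + 1) l Z) (hw : ∀ I : Finset (Fin m), l ≤ I.card → Wins m w I) :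
    Nonempty (Sys m (w + 1) (Z × X)) := by
  classical
  -- an orientation
  obtain ⟨e, he⟩ : ∃ e : Z → ℕ, Function.Injective e :=
    ⟨fun z => (Z.equivFin z : ℕ), fun a b h => Z.equivFin.injective (Fin.ext h)⟩
  -- strategies
  have hst : ∀ z z' : Z, ∃ gL gR : (Fin m → ℕ) → Fin m → ℕ, z ≠ z' → ∀ x y : Fin m → ℕ,
      (∀ i, z.1 i ≠ z'.1 i → x i < w ∧ y i < w) →
        ∃ c : Fin m × ℕ, Right gL gR z.1 z'.1 x y c := by
    intro z z'
    by_cases hne : z = z'
    · exact ⟨fun _ _ => 0, fun _ _ => 0, fun h => absurd hne h⟩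
    · have h1 := hZ.2 z.1 z.2 z'.1 z'.2 (fun h => hne (Subtype.ext h))
      obtain ⟨gL, gR, h2⟩ := hw _ h1
      refine ⟨gL, gR, fun _ x y hxy => ?_⟩
      obtain ⟨i, hi, h3⟩ := h2 x y (fun i hi => hxy i (by simpa using hi))
      have hi' : z.1 i ≠ z'.1 i := by simpa using hi
      rcases h3 with h3 | h3
      · exact ⟨(i, z'.1 i), hi', Or.inl ⟨rfl, h3⟩⟩
      · exact ⟨(i, z.1 i), hi', Or.inr ⟨rfl, h3⟩⟩
  choose gL gR hg using hst
  -- symbols
  let V : Z × X → Fin m → ℕ → ℕ := fun P => nval w S.val P.1.1 P.2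
  have hV : ∀ (P : Z × X) i p, p < w + 1 → p ≠ P.1.1 i → V P i p < w := by
    intro P i p hp hne
    simp only [V, nval, if_neg hne]
    exact S.val_lt _ _ _ (unskip_lt (hZ.1 _ P.1.2 i) hp hne)
  have hVz : ∀ (P : Z × X) i, V P i (P.1.1 i) = w := by
    intro P i
    simp [V, nval]
  -- the colour of an oriented pair of points in different blocks
  have hpick : ∀ P R : Z × X, ∃ c : Fin m × ℕ, P.1 ≠ R.1 →
      Right (gL P.1 R.1) (gR P.1 R.1) P.1.1 R.1.1 (fun i => V P i (R.1.1 i))
        (fun i => V R i (P.1.1 i)) c := by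
    intro P R
    by_cases hne : P.1 = R.1
    · exact ⟨S.col P.2 R.2, fun h => absurd hne h⟩
    · obtain ⟨c, hc⟩ := hg P.1 R.1 hne (fun i => V P i (R.1.1 i)) (fun i => V R i (P.1.1 i))
        (fun i hi => ⟨hV P i _ (hZ.1 _ R.1.2 i) (Ne.symm hi), hV R i _ (hZ.1 _ P.1.2 i) hi⟩)
      exact ⟨c, fun _ => hc⟩
  choose pick hpick using hpick
  let C : Z × X → Z × X → Fin m × ℕ := fun P R =>
    if P.1 = R.1 then ((S.col P.2 R.2).1, skip (P.1.1 (S.col P.2 R.2).1) (S.col P.2 R.2).2)
    else if e P.1 < e R.1 then pick P R else pick R P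
  -- points in the same block
  have hCs : ∀ P R : Z × X, P.1 = R.1 →
      C P R = ((S.col P.2 R.2).1, skip (P.1.1 (S.col P.2 R.2).1) (S.col P.2 R.2).2) := by
    intro P R h
    simp only [C, if_pos h]
  have hCl : ∀ P R : Z × X, e P.1 < e R.1 → C P R = pick P R := by
    intro P R h
    have hne : P.1 ≠ R.1 := fun h' => by rw [h'] at h; exact lt_irrefl _ h
    simp only [C, if_neg hne, if_pos h]
  have hCg : ∀ P R : Z × X, e R.1 < e P.1 → C P R = pick R P := by
    intro P R h
    have hne : P.1 ≠ R.1 := fun h' => by rw [h'] at h; exact lt_irrefl _ h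
    simp only [C, if_neg hne, if_neg h.not_gt]
  have hor : ∀ P R : Z × X, P.1 ≠ R.1 → e P.1 < e R.1 ∨ e R.1 < e P.1 := by
    intro P R h
    rcases lt_trichotomy (e P.1) (e R.1) with h1 | h1 | h1
    · exact Or.inl h1
    · exact absurd (he h1) h
    · exact Or.inr h1
  have hne2 : ∀ P R : Z × X, P ≠ R → P.1 = R.1 → P.2 ≠ R.2 := by
    intro P R h h1 h2
    exact h (Prod.ext h1 h2)
  -- the new symbol at the colour of a pair in different blocks
  have hCd : ∀ P R : Z × X, P.1 ≠ R.1 → P.1.1 (C P R).1 ≠ R.1.1 (C P R).1 ∧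
      ((C P R).2 = P.1.1 (C P R).1 ∨ (C P R).2 = R.1.1 (C P R).1) := by
    intro P R h
    rcases hor P R h with h1 | h1
    · rw [hCl P R h1]
      obtain ⟨h2, h3⟩ := hpick P R h
      refine ⟨h2, ?_⟩
      rcases h3 with h3 | h3
      · exact Or.inr h3.1
      · exact Or.inl h3.1
    · rw [hCg P R h1]
      obtain ⟨h2, h3⟩ := hpick R P h.symm
      refine ⟨h2.symm, ?_⟩
      rcases h3 with h3 | h3
      · exact Or.inl h3.1
      · exact Or.inr h3.1
  have hsymm : ∀ P R : Z × X, P ≠ R → C R P = C P R := by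
    intro P R h
    by_cases h1 : P.1 = R.1
    · rw [hCs P R h1, hCs R P h1.symm, S.symm _ _ (hne2 P R h h1), h1]
    · rcases hor P R h1 with h2 | h2
      · rw [hCl P R h2, hCg R P h2]
      · rw [hCg P R h2, hCl R P h2]
  -- two points in one block, one in another
  have htwo : ∀ P Q R : Z × X, P ≠ Q → P.1 = Q.1 → P.1 ≠ R.1 →
      ¬ (C P Q = C P R ∧ C P Q = C Q R) := by
    rintro P Q R hPQ h1 h2 ⟨e1, e2⟩
    have h3 : Q.1 ≠ R.1 := h1 ▸ h2
    have hcol := hCs P Q h1
    set i := (S.col P.2 Q.2).1 with hi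
    set p := (S.col P.2 Q.2).2 with hp
    have hSne := S.ne P.2 Q.2 (hne2 P Q hPQ h1)
    rw [← hi, ← hp] at hSne
    have hpz : skip (P.1.1 i) p ≠ P.1.1 i := skip_ne _ _
    have hVP : V P i (skip (P.1.1 i) p) = S.val P.2 i p := by
      simp only [V, nval, if_neg hpz, unskip_skip]
    have hVQ : V Q i (skip (P.1.1 i) p) = S.val Q.2 i p := by
      have : skip (P.1.1 i) p ≠ Q.1.1 i := h1 ▸ hpz
      simp only [V, nval, if_neg this]
      rw [← h1, unskip_skip]
    have key : V P i (skip (P.1.1 i) p) = V Q i (skip (P.1.1 i) p) := by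
      rcases hor P R h2 with h4 | h4
      · have h5 : e Q.1 < e R.1 := h1 ▸ h4
        rw [hCl P R h4, hcol] at e1
        rw [hCl Q R h5, hcol] at e2
        have a1 := hpick P R h2
        have a2 := hpick Q R h3
        rw [← e1] at a1
        rw [← e2, ← h1] at a2
        obtain ⟨-, a1⟩ := a1
        obtain ⟨-, a2⟩ := a2
        simp only at a1 a2
        rcases a1 with a1 | a1
        · rcases a2 with a2 | a2
          · rw [← a1.1] at a2 a1
            rw [a1.2, a2.2]
          · exact absurd a2.1 hpz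
        · exact absurd a1.1 hpz
      · have h5 : e R.1 < e Q.1 := h1 ▸ h4
        rw [hCg P R h4, hcol] at e1
        rw [hCg Q R h5, hcol] at e2
        have a1 := hpick R P h2.symm
        have a2 := hpick R Q h3.symm
        rw [← e1] at a1
        rw [← e2, ← h1] at a2
        obtain ⟨-, a1⟩ := a1
        obtain ⟨-, a2⟩ := a2
        simp only at a1 a2
        rcases a1 with a1 | a1
        · exact absurd a1.1 hpz
        · rcases a2 with a2 | a2
          · exact absurd a2.1 hpz
          · rw [← a1.1] at a2 a1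
            rw [a1.2, a2.2]
    rw [hVP, hVQ] at key
    exact hSne key
  refine ⟨⟨C, V, hsymm, ?_, ?_, ?_, ?_⟩⟩
  · intro P R h
    by_cases h1 : P.1 = R.1
    · rw [hCs P R h1]
      exact skip_lt (S.lt _ _ (hne2 P R h h1))
    · obtain ⟨-, h2⟩ := hCd P R h1
      rcases h2 with h2 | h2
      · rw [h2]; exact hZ.1 _ P.1.2 _
      · rw [h2]; exact hZ.1 _ R.1.2 _
  · intro P i p hp
    by_cases h1 : p = P.1.1 i
    · rw [h1, hVz]; omega
    · exact (hV P i p hp h1).trans (Nat.lt_succ_self w)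
  · intro P R h
    by_cases h1 : P.1 = R.1
    · have hcol := hCs P R h1
      rw [hcol]
      have hSne := S.ne P.2 R.2 (hne2 P R h h1)
      set i := (S.col P.2 R.2).1 with hi
      set p := (S.col P.2 R.2).2 with hp
      have hpz : skip (P.1.1 i) p ≠ P.1.1 i := skip_ne _ _
      have hpz' : skip (P.1.1 i) p ≠ R.1.1 i := h1 ▸ hpz
      simp only [V, nval, if_neg hpz, if_neg hpz', unskip_skip]
      rw [← h1, unskip_skip]
      exact hSne
    · obtain ⟨h2, h3⟩ := hCd P R h1
      generalize hc : C P R = c at h2 h3 ⊢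
      have hlt : ∀ T : Z × X, T.1.1 c.1 < w + 1 := fun T => hZ.1 _ T.1.2 _
      rcases h3 with h3 | h3
      · rw [h3, hVz]
        exact (hV R c.1 _ (hlt P) h2).ne'
      · rw [h3, hVz]
        exact (hV P c.1 _ (hlt R) h2.symm).ne
  · rintro P Q R h1 h2 h3 ⟨e1, e2⟩
    by_cases a : P.1 = Q.1
    · by_cases b : P.1 = R.1
      · -- all in the same block
        have b' : Q.1 = R.1 := a ▸ b
        rw [hCs P Q a, hCs Q R b'] at e1
        rw [hCs P Q a, hCs P R b] at e2
        simp only [Prod.mk.injEq] at e1 e2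
        obtain ⟨f1, f2⟩ := e1
        obtain ⟨g1, g2⟩ := e2
        rw [← f1, ← a] at f2
        rw [← g1] at g2
        exact S.tri P.2 Q.2 R.2 (hne2 _ _ h1 a) (hne2 _ _ h2 b') (hne2 _ _ h3 b)
          ⟨Prod.ext f1 (skip_inj f2), Prod.ext g1 (skip_inj g2)⟩
      · exact htwo P Q R h1 a b ⟨e2, e1⟩
    · by_cases b : Q.1 = R.1
      · refine htwo Q R P h2 b (Ne.symm a) ⟨?_, ?_⟩
        · rw [← e1, hsymm P Q h1]
        · rw [← e1, hsymm P R h3, e2]
      · by_cases c : P.1 = R.1
        · refine htwo P R Q h3 c a ⟨e2.symm, ?_⟩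
          rw [hsymm Q R h2, ← e1, e2]
        · obtain ⟨u1, u2⟩ := hCd P Q a
          obtain ⟨v1, v2⟩ := hCd Q R b
          obtain ⟨w1, w2⟩ := hCd P R c
          rw [← e1] at v1 v2
          rw [← e2] at w1 w2
          generalize C P Q = d at *
          rcases u2 with u2 | u2 <;> rcases v2 with v2 | v2 <;> rcases w2 with w2 | w2
          · exact u1 (by rw [← u2, v2])
          · exact u1 (by rw [← u2, v2])
          · exact w1 (by rw [← u2, ← v2])
          · exact w1 (by rw [← u2, ← v2])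
          · exact u1 (by rw [← u2, ← w2])
          · exact v1 (by rw [← u2, ← w2])
          · exact v1 (by rw [← u2, ← v2])
          · exact v1 (by rw [← u2, ← v2])

/-- The iterated construction. -/
theorem exists_sys (m w l : ℕ) (hm : 1 ≤ m) (hw : ∀ I : Finset (Fin m), l ≤ I.card → Wins m w I)
    (Z : ℕ → Finset (Fin m → ℕ)) (hZ : ∀ k, k < w → IsCode m (k + 1) l (Z k)) :
    ∀ v ≤ w, ∃ (X : Type) (_ : Fintype X), Fintype.card X = ∏ k ∈ range v, (Z k).card ∧
      Nonempty (Sys m v X) := by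
  intro v
  induction v with
  | zero =>
    intro _
    refine ⟨Unit, inferInstance, by simp, ⟨⟨fun _ _ => (⟨0, hm⟩, 0), fun _ _ _ => 0, ?_, ?_, ?_,
      ?_, ?_⟩⟩⟩
    · intro x y h; rfl
    · intro x y h; exact absurd (Subsingleton.elim x y) h
    · intro x i p h; omega
    · intro x y h; exact absurd (Subsingleton.elim x y) h
    · intro x y z h; exact absurd (Subsingleton.elim x y) h
  | succ v ih =>
    intro hv
    obtain ⟨X, _, hX, ⟨S⟩⟩ := ih (by omega)
    refine ⟨Z v × X, inferInstance, ?_, step S (Z v) l (hZ v (by omega))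
      (fun I hI => (hw I hI).mono (by omega))⟩
    rw [Fintype.card_prod, hX, Fintype.card_coe, prod_range_succ, mul_comm]

end Pool.Agent.TriSup
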