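import Pool.Agent.TriSup.Defs2
import Pool.Agent.TriSup.Core

/-!
# The recursive construction, adaptive version
-/

namespace Pool.Agent.TriSup

open Finset

variable {m : ℕ}

lemma Wins2.mono {I : Finset (Fin m)} {HL HL' HR HR' : (Fin m → ℕ) → Prop}
    (h : Wins2 I HL' HR') (h1 : ∀ x, HL x → HL' x) (h2 : ∀ y, HR y → HR' y) :
    Wins2 I HL HR := by
  obtain ⟨WL, WR, a, b, c⟩ := h
  exact ⟨WL, WR, fun x x' y i hi hx hx' hy => a x x' y i hi (h1 x hx) (h1 x' hx') (h2 y hy), b,
    fun x y hx hy => c x y (h1 x hx) (h2 y hy)⟩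

/-- `c` is the coordinate of a player who bets right, for points in the blocks `z` (left team)
and `z'` (right team), where `x`, `y` are the hats of the two teams. -/
def Right2 (WL WR : (Fin m → ℕ) → (Fin m → ℕ) → Fin m → Prop) (z z' x y : Fin m → ℕ)
    (c : Fin m × ℕ) : Prop :=
  z c.1 ≠ z' c.1 ∧ ((c.2 = z' c.1 ∧ WL x y c.1) ∨ (c.2 = z c.1 ∧ WR x y c.1))

/-- One step of the recursion. -/
theorem step2 {X : Type} {M : ℕ → Finset (Fin m)} {N : ℕ} {ρ ρ' : Fin m → ℕ}
    (S : Sys2 m M N ρ X) (hin : ∀ i ∈ M N, ρ' i = ρ i + 1) (hout : ∀ i ∉ M N, ρ' i = ρ i)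
    (Z : Finset (Fin m → ℕ)) (l : ℕ) (hZ : IsCode2 (M N) ρ l Z)
    (hw : ∀ I ⊆ M N, l ≤ I.card → Wins2 I (fun x => ∀ i ∈ I, x i < N ∧ i ∈ M (x i))
      (fun y => ∀ i ∈ I, y i < N)) :
    Nonempty (Sys2 m M (N + 1) ρ' (Z × X)) := by
  classical
  -- facts about the code
  have zle : ∀ z : Z, ∀ i, z.1 i ≤ ρ i := by
    intro z i
    by_cases hi : i ∈ M N
    · exact (hZ.1 z.1 z.2).1 i hi
    · exact ((hZ.1 z.1 z.2).2 i hi).le
  have zlt : ∀ z : Z, ∀ i, i ∈ M N → z.1 i < ρ' i := by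
    intro z i hi
    have := zle z i
    have := hin i hi
    omega
  have zmem : ∀ z z' : Z, ∀ i, z.1 i ≠ z'.1 i → i ∈ M N := by
    intro z z' i h
    by_contra hi
    exact h (((hZ.1 z.1 z.2).2 i hi).trans ((hZ.1 z'.1 z'.2).2 i hi).symm)
  have hun : ∀ z : Z, ∀ i p, p < ρ' i → p ≠ z.1 i → unskip (z.1 i) p < ρ i := by
    intro z i p hp hne
    by_cases hi : i ∈ M N
    · have h1 := hin i hi
      have h2 := zle z i
      exact unskip_lt (by omega) (by omega) hne
    · have h1 := hout i hi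
      have h2 := (hZ.1 z.1 z.2).2 i hi
      unfold unskip
      split_ifs <;> omega
  have hsk : ∀ z : Z, ∀ i p, p < ρ i → skip (z.1 i) p < ρ' i := by
    intro z i p hp
    by_cases hi : i ∈ M N
    · rw [hin i hi]
      exact skip_lt hp
    · have h1 := hout i hi
      have h2 := (hZ.1 z.1 z.2).2 i hi
      unfold skip
      split_ifs <;> omega
  have heq : ∀ z : Z, ∀ i p, p < ρ' i → p = z.1 i → i ∈ M N := by
    intro z i p hp hpz
    by_contra hi
    have h1 := hout i hi
    have h2 := (hZ.1 z.1 z.2).2 i hi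
    omega
  -- an orientation
  obtain ⟨e, he⟩ : ∃ e : Z → ℕ, Function.Injective e :=
    ⟨fun z => (Z.equivFin z : ℕ), fun a b h => Z.equivFin.injective (Fin.ext h)⟩
  -- the set of players
  let D : Z → Z → Finset (Fin m) := fun z z' => univ.filter fun i => z.1 i ≠ z'.1 i
  have hD : ∀ z z' : Z, ∀ i, i ∈ D z z' ↔ z.1 i ≠ z'.1 i := by
    intro z z' i
    simp [D]
  have hw' : ∀ z z' : Z, z ≠ z' → Wins2 (D z z') (fun x => ∀ i ∈ D z z', x i < N ∧ i ∈ M (x i))
      (fun y => ∀ i ∈ D z z', y i < N) := by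
    intro z z' hne
    refine hw _ ?_ (hZ.2 z.1 z.2 z'.1 z'.2 (fun h => hne (Subtype.ext h)))
    intro i hi
    exact zmem z z' i ((hD z z' i).1 hi)
  have hw2 : ∀ z z' : Z, ∃ WL WR : (Fin m → ℕ) → (Fin m → ℕ) → Fin m → Prop, z ≠ z' →
      (∀ x x' y, ∀ i ∈ D z z', (∀ i ∈ D z z', x i < N ∧ i ∈ M (x i)) →
        (∀ i ∈ D z z', x' i < N ∧ i ∈ M (x' i)) → (∀ i ∈ D z z', y i < N) →
        WL x y i → WL x' y i → Agree (D z z') (max (x i) (x' i)) x x' → x i = x' i) ∧
      (∀ x y y', ∀ i ∈ D z z', WR x y i → WR x y' i → y i = y' i) ∧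
      (∀ x y, (∀ i ∈ D z z', x i < N ∧ i ∈ M (x i)) → (∀ i ∈ D z z', y i < N) →
        ∃ i ∈ D z z', WL x y i ∨ WR x y i) := by
    intro z z'
    by_cases hne : z = z'
    · exact ⟨fun _ _ _ => True, fun _ _ _ => True, fun h => absurd hne h⟩
    · obtain ⟨WL, WR, h1, h2, h3⟩ := hw' z z' hne
      exact ⟨WL, WR, fun _ => ⟨h1, h2, h3⟩⟩
  choose WL WR hW using hw2
  -- symbols
  let V : Z × X → Fin m → ℕ → ℕ := fun P => nval N S.val P.1.1 P.2
  have hV : ∀ (P : Z × X) i p, p < ρ' i → p ≠ P.1.1 i → V P i p < N ∧ i ∈ M (V P i p) := by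
    intro P i p hp hne
    simp only [V, nval, if_neg hne]
    exact ⟨S.val_lt _ _ _ (hun P.1 i p hp hne), S.val_mem _ _ _ (hun P.1 i p hp hne)⟩
  have hVz : ∀ (P : Z × X) i, V P i (P.1.1 i) = N := by
    intro P i
    simp [V, nval]
  have hHL : ∀ P R : Z × X, ∀ i ∈ D P.1 R.1, V P i (R.1.1 i) < N ∧ i ∈ M (V P i (R.1.1 i)) := by
    intro P R i hi
    rw [hD] at hi
    exact hV P i _ (zlt R.1 i (zmem _ _ i hi)) (Ne.symm hi)
  have hDs : ∀ z z' : Z, ∀ i, i ∈ D z z' ↔ i ∈ D z' z := by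
    intro z z' i
    rw [hD, hD]
    exact ne_comm
  have hHR : ∀ P R : Z × X, ∀ i ∈ D P.1 R.1, V R i (P.1.1 i) < N := by
    intro P R i hi
    exact (hHL R P i ((hDs _ _ _).1 hi)).1
  -- the colour of an oriented pair of points in different blocks
  have hpick : ∀ P R : Z × X, ∃ c : Fin m × ℕ, P.1 ≠ R.1 →
      Right2 (WL P.1 R.1) (WR P.1 R.1) P.1.1 R.1.1 (fun i => V P i (R.1.1 i))
        (fun i => V R i (P.1.1 i)) c := by
    intro P R
    by_cases hne : P.1 = R.1
    · exact ⟨S.col P.2 R.2, fun h => absurd hne h⟩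
    · obtain ⟨i, hi, h⟩ := (hW P.1 R.1 hne).2.2 (fun i => V P i (R.1.1 i))
        (fun i => V R i (P.1.1 i)) (hHL P R) (hHR P R)
      rw [hD] at hi
      rcases h with h | h
      · exact ⟨(i, R.1.1 i), fun _ => ⟨hi, Or.inl ⟨rfl, h⟩⟩⟩
      · exact ⟨(i, P.1.1 i), fun _ => ⟨hi, Or.inr ⟨rfl, h⟩⟩⟩
  choose pick hpick using hpick
  let C : Z × X → Z × X → Fin m × ℕ := fun P R =>
    if P.1 = R.1 then ((S.col P.2 R.2).1, skip (P.1.1 (S.col P.2 R.2).1) (S.col P.2 R.2).2)
    else if e P.1 < e R.1 then pick P R else pick R P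
  -- points in the same block
  have hCs : ∀ P R : Z × X, P.1 = R.1 →
      C P R = ((S.col P.2 R.2).1, skip (P.1.1 (S.col P.2 R.2).1) (S.col P.2 R.2).2) := by
    intro P R h
    simp only [C, if_pos h]
  have hCl : ∀ P R : Z × X, e P.1 < e R.1 → C P R = pick P R := by
    intro P R h
    have hne : P.1 ≠ R.1 := fun h' => by rw [h'] at h; exact lt_irrefl _ h
    simp only [C, if_neg hne, if_pos h]
  have hCg : ∀ P R : Z × X, e R.1 < e P.1 → C P R = pick R P := by
    intro P R h
    have hne : P.1 ≠ R.1 := fun h' => by rw [h'] at h; exact lt_irrefl _ h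
    simp only [C, if_neg hne, if_neg h.not_gt]
  have hor : ∀ P R : Z × X, P.1 ≠ R.1 → e P.1 < e R.1 ∨ e R.1 < e P.1 := by
    intro P R h
    rcases lt_trichotomy (e P.1) (e R.1) with h1 | h1 | h1
    · exact Or.inl h1
    · exact absurd (he h1) h
    · exact Or.inr h1
  have hne2 : ∀ P R : Z × X, P ≠ R → P.1 = R.1 → P.2 ≠ R.2 := by
    intro P R h h1 h2
    exact h (Prod.ext h1 h2)
  -- the new symbol at the colour of a pair in different blocks
  have hCd : ∀ P R : Z × X, P.1 ≠ R.1 → P.1.1 (C P R).1 ≠ R.1.1 (C P R).1 ∧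
      ((C P R).2 = P.1.1 (C P R).1 ∨ (C P R).2 = R.1.1 (C P R).1) := by
    intro P R h
    rcases hor P R h with h1 | h1
    · rw [hCl P R h1]
      obtain ⟨h2, h3⟩ := hpick P R h
      refine ⟨h2, ?_⟩
      rcases h3 with h3 | h3
      · exact Or.inr h3.1
      · exact Or.inl h3.1
    · rw [hCg P R h1]
      obtain ⟨h2, h3⟩ := hpick R P h.symm
      refine ⟨h2.symm, ?_⟩
      rcases h3 with h3 | h3
      · exact Or.inl h3.1
      · exact Or.inr h3.1
  have hsymm : ∀ P R : Z × X, P ≠ R → C R P = C P R := by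
    intro P R h
    by_cases h1 : P.1 = R.1
    · rw [hCs P R h1, hCs R P h1.symm, S.symm _ _ (hne2 P R h h1), h1]
    · rcases hor P R h1 with h2 | h2
      · rw [hCl P R h2, hCg R P h2]
      · rw [hCg P R h2, hCl R P h2]
  -- the symbols at the colour of a pair in one block
  have hVcol : ∀ P R : Z × X, P ≠ R → P.1 = R.1 →
      V P (C P R).1 (C P R).2 = S.val P.2 (S.col P.2 R.2).1 (S.col P.2 R.2).2 ∧
      V R (C P R).1 (C P R).2 = S.val R.2 (S.col P.2 R.2).1 (S.col P.2 R.2).2 := by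
    intro P R h h1
    rw [hCs P R h1]
    have hpz : skip (P.1.1 (S.col P.2 R.2).1) (S.col P.2 R.2).2 ≠ P.1.1 (S.col P.2 R.2).1 :=
      skip_ne _ _
    have hpz' : skip (P.1.1 (S.col P.2 R.2).1) (S.col P.2 R.2).2 ≠ R.1.1 (S.col P.2 R.2).1 :=
      h1 ▸ hpz
    constructor
    · simp only [V, nval, if_neg hpz, unskip_skip]
    · simp only [V, nval, if_neg hpz']
      rw [← h1, unskip_skip]
  -- two points of one block agree above the larger symbol of their colour
  have hpre : ∀ P R : Z × X, P ≠ R → P.1 = R.1 → ∀ i p v, p < ρ' i →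
      max (V P (C P R).1 (C P R).2) (V R (C P R).1 (C P R).2) < v →
        (V P i p = v ↔ V R i p = v) := by
    intro P R h h1 i p v hp hv
    obtain ⟨h2, h3⟩ := hVcol P R h h1
    rw [h2, h3] at hv
    by_cases hpz : p = P.1.1 i
    · have hpz' : p = R.1.1 i := h1 ▸ hpz
      have e1 : V P i p = N := by rw [hpz]; exact hVz P i
      have e2 : V R i p = N := by rw [hpz']; exact hVz R i
      rw [e1, e2]
    · have hpz' : p ≠ R.1.1 i := h1 ▸ hpz
      simp only [V, nval, if_neg hpz, if_neg hpz']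
      rw [← h1]
      exact S.pre P.2 R.2 (hne2 P R h h1) i _ v (hun P.1 i p hp hpz) hv
  -- two points in one block, one in another
  have htwo : ∀ P Q R : Z × X, P ≠ Q → P.1 = Q.1 → P.1 ≠ R.1 →
      ¬ (C P Q = C P R ∧ C P Q = C Q R) := by
    rintro P Q R hPQ h1 h2 ⟨e1, e2⟩
    have h3 : Q.1 ≠ R.1 := h1 ▸ h2
    have hcol := hCs P Q h1
    obtain ⟨hVP, hVQ⟩ := hVcol P Q hPQ h1
    have hSne := S.ne P.2 Q.2 (hne2 P Q hPQ h1)
    rw [← hVP, ← hVQ] at hSne
    have hpre' := hpre P Q hPQ h1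
    have hpz : (C P Q).2 ≠ P.1.1 (C P Q).1 := by
      rw [hcol]
      exact skip_ne _ _
    generalize C P Q = c at *
    apply hSne
    rcases hor P R h2 with h4 | h4
    · have h5 : e Q.1 < e R.1 := h1 ▸ h4
      rw [hCl P R h4] at e1
      rw [hCl Q R h5] at e2
      have a1 := hpick P R h2
      have a2 := hpick Q R h3
      rw [← e1] at a1
      rw [← e2, ← h1] at a2
      obtain ⟨a0, a1⟩ := a1
      obtain ⟨-, a2⟩ := a2
      rcases a1 with a1 | a1
      · rcases a2 with a2 | a2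
        · have hi : c.1 ∈ D P.1 R.1 := (hD _ _ _).2 a0
          have key := (hW P.1 R.1 h2).1 (fun i => V P i (R.1.1 i)) (fun i => V Q i (R.1.1 i))
            (fun i => V R i (P.1.1 i)) c.1 hi (hHL P R) (by
              have := hHL Q R
              rwa [← h1] at this) (hHR P R) a1.2 a2.2 (by
              intro k hk v hv
              rw [hD] at hk
              refine hpre' k (R.1.1 k) v (zlt R.1 k (zmem _ _ k hk)) ?_
              rw [a1.1]
              exact hv)
          rw [a1.1]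
          exact key
        · exact absurd a2.1 hpz
      · exact absurd a1.1 hpz
    · have h5 : e R.1 < e Q.1 := h1 ▸ h4
      rw [hCg P R h4] at e1
      rw [hCg Q R h5] at e2
      have a1 := hpick R P h2.symm
      have a2 := hpick R Q h3.symm
      rw [← e1] at a1
      rw [← e2, ← h1] at a2
      obtain ⟨a0, a1⟩ := a1
      obtain ⟨-, a2⟩ := a2
      rcases a1 with a1 | a1
      · exact absurd a1.1 hpz
      · rcases a2 with a2 | a2
        · exact absurd a2.1 hpz
        · have hi : c.1 ∈ D R.1 P.1 := (hD _ _ _).2 a0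
          have key := (hW R.1 P.1 h2.symm).2.1 (fun i => V R i (P.1.1 i))
            (fun i => V P i (R.1.1 i)) (fun i => V Q i (R.1.1 i)) c.1 hi a1.2 a2.2
          rw [a1.1]
          exact key
  refine ⟨⟨C, V, hsymm, ?_, ?_, ?_, ?_, ?_, ?_⟩⟩
  · intro P R h
    by_cases h1 : P.1 = R.1
    · rw [hCs P R h1]
      exact hsk P.1 _ _ (S.lt _ _ (hne2 P R h h1))
    · obtain ⟨h3, h2⟩ := hCd P R h1
      have h4 := zmem _ _ _ h3
      rcases h2 with h2 | h2
      · rw [h2]; exact zlt P.1 _ h4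
      · rw [h2]; exact zlt R.1 _ h4
  · intro P i p hp
    by_cases h1 : p = P.1.1 i
    · rw [h1, hVz]; omega
    · exact (hV P i p hp h1).1.trans (Nat.lt_succ_self N)
  · intro P i p hp
    by_cases h1 : p = P.1.1 i
    · have := heq P.1 i p hp h1
      rw [h1, hVz]
      exact this
    · exact (hV P i p hp h1).2
  · intro P R h
    by_cases h1 : P.1 = R.1
    · obtain ⟨h2, h3⟩ := hVcol P R h h1
      rw [h2, h3]
      exact S.ne P.2 R.2 (hne2 P R h h1)
    · obtain ⟨h2, h3⟩ := hCd P R h1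
      have h4 := zmem _ _ _ h2
      generalize hc : C P R = c at h2 h3 h4 ⊢
      rcases h3 with h3 | h3
      · rw [h3, hVz]
        exact (hV R c.1 _ (zlt P.1 _ h4) h2).1.ne'
      · rw [h3, hVz]
        exact (hV P c.1 _ (zlt R.1 _ h4) h2.symm).1.ne
  · intro P R h i p v hp hv
    by_cases h1 : P.1 = R.1
    · exact hpre P R h h1 i p v hp hv
    · obtain ⟨h2, h3⟩ := hCd P R h1
      have hN : N < v := by
        rcases h3 with h3 | h3
        · rw [h3] at hv
          have := (le_max_left _ _).trans_lt hv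
          rwa [hVz] at this
        · rw [h3] at hv
          have := (le_max_right _ _).trans_lt hv
          rwa [hVz] at this
      have hle : ∀ T : Z × X, V T i p ≤ N := by
        intro T
        by_cases h5 : p = T.1.1 i
        · rw [h5, hVz]
        · exact (hV T i p hp h5).1.le
      have h5 := hle P
      have h6 := hle R
      omega
  · rintro P Q R h1 h2 h3 ⟨e1, e2⟩
    by_cases a : P.1 = Q.1
    · by_cases b : P.1 = R.1
      · -- all in the same block
        have b' : Q.1 = R.1 := a ▸ b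
        rw [hCs P Q a, hCs Q R b'] at e1
        rw [hCs P Q a, hCs P R b] at e2
        simp only [Prod.mk.injEq] at e1 e2
        obtain ⟨f1, f2⟩ := e1
        obtain ⟨g1, g2⟩ := e2
        rw [← f1, ← a] at f2
        rw [← g1] at g2
        exact S.tri P.2 Q.2 R.2 (hne2 _ _ h1 a) (hne2 _ _ h2 b') (hne2 _ _ h3 b)
          ⟨Prod.ext f1 (skip_inj f2), Prod.ext g1 (skip_inj g2)⟩
      · exact htwo P Q R h1 a b ⟨e2, e1⟩
    · by_cases b : Q.1 = R.1
      · refine htwo Q R P h2 b (Ne.symm a) ⟨?_, ?_⟩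
        · rw [← e1, hsymm P Q h1]
        · rw [← e1, hsymm P R h3, e2]
      · by_cases c : P.1 = R.1
        · refine htwo P R Q h3 c a ⟨e2.symm, ?_⟩
          rw [hsymm Q R h2, ← e1, e2]
        · obtain ⟨u1, u2⟩ := hCd P Q a
          obtain ⟨v1, v2⟩ := hCd Q R b
          obtain ⟨w1, w2⟩ := hCd P R c
          rw [← e1] at v1 v2
          rw [← e2] at w1 w2
          generalize C P Q = d at *
          rcases u2 with u2 | u2 <;> rcases v2 with v2 | v2 <;> rcases w2 with w2 | w2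
          · exact u1 (by rw [← u2, v2])
          · exact u1 (by rw [← u2, v2])
          · exact w1 (by rw [← u2, ← v2])
          · exact w1 (by rw [← u2, ← v2])
          · exact u1 (by rw [← u2, ← w2])
          · exact v1 (by rw [← u2, ← w2])
          · exact v1 (by rw [← u2, ← v2])
          · exact v1 (by rw [← u2, ← v2])

/-- The number of levels below `v` at which the part `i` acts. -/
def acts (M : ℕ → Finset (Fin m)) (v : ℕ) (i : Fin m) : ℕ :=
  ((range v).filter fun t => i ∈ M t).card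

/-- The iterated construction. -/
theorem exists_sys2 (m : ℕ) (hm : 1 ≤ m) (M : ℕ → Finset (Fin m)) (N l : ℕ)
    (hw : ∀ t < N, ∀ I ⊆ M t, l ≤ I.card → Wins2 I (fun x => ∀ i ∈ I, x i < t ∧ i ∈ M (x i))
      (fun y => ∀ i ∈ I, y i < t))
    (Z : ℕ → Finset (Fin m → ℕ)) (hZ : ∀ t, t < N → IsCode2 (M t) (acts M t) l (Z t)) :
    ∀ v ≤ N, ∃ (X : Type) (_ : Fintype X), Fintype.card X = ∏ t ∈ range v, (Z t).card ∧
      Nonempty (Sys2 m M v (acts M v) X) := by
  intro v
  induction v with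
  | zero =>
    intro _
    refine ⟨Unit, inferInstance, by simp, ⟨⟨fun _ _ => (⟨0, hm⟩, 0), fun _ _ _ => 0, ?_, ?_, ?_,
      ?_, ?_, ?_, ?_⟩⟩⟩
    · intro x y h; rfl
    · intro x y h; exact absurd (Subsingleton.elim x y) h
    · intro x i p h; simp [acts] at h
    · intro x i p h; simp [acts] at h
    · intro x y h; exact absurd (Subsingleton.elim x y) h
    · intro x y h; exact absurd (Subsingleton.elim x y) h
    · intro x y z h; exact absurd (Subsingleton.elim x y) h
  | succ v ih =>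
    intro hv
    obtain ⟨X, _, hX, ⟨S⟩⟩ := ih (by omega)
    refine ⟨Z v × X, inferInstance, ?_, step2 S ?_ ?_ (Z v) l (hZ v (by omega))
      (hw v (by omega))⟩
    · rw [Fintype.card_prod, hX, Fintype.card_coe, prod_range_succ, mul_comm]
    · intro i hi
      unfold acts
      rw [range_add_one, filter_insert, if_pos hi, card_insert_of_notMem (by simp)]
    · intro i hi
      unfold acts
      rw [range_add_one, filter_insert, if_neg hi]

end Pool.Agent.TriSup
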