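import Mathlib

/-!
# Superexponential growth of `r(3; q)`: definitions

Two teams of players, both indexed by a finite set `I` of indices; hats with `q` colours.  The
left players see exactly the hats of the right players and vice versa.
-/

namespace Pool.Agent.TriSup

/-- The players (a left player and a right player for every index in `I`) have a strategy for
`q` hat colours: `gL y i` is the guess of the left player `i` when the right players have the hats
`y`, and `gR x i` is the guess of the right player `i` when the left players have the hats `x`;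
somebody is always right. -/
def Wins (m q : ℕ) (I : Finset (Fin m)) : Prop :=
  ∃ gL gR : (Fin m → ℕ) → Fin m → ℕ, ∀ x y : Fin m → ℕ,
    (∀ i ∈ I, x i < q ∧ y i < q) → ∃ i ∈ I, x i = gL y i ∨ y i = gR x i

lemma Wins.mono {m q q' : ℕ} {I : Finset (Fin m)} (h : Wins m q' I) (hq : q ≤ q') :
    Wins m q I := by
  obtain ⟨gL, gR, h⟩ := h
  exact ⟨gL, gR, fun x y hxy => h x y fun i hi =>
    ⟨(hxy i hi).1.trans_le hq, (hxy i hi).2.trans_le hq⟩⟩

/-- A colouring of the pairs of `X` with colours `(i, p)`, `p < w`, without monochromatic
triangle, such that the colour of a pair is a coordinate where the symbols of the two points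
differ. -/
structure Sys (m w : ℕ) (X : Type) where
  col : X → X → Fin m × ℕ
  val : X → Fin m → ℕ → ℕ
  symm : ∀ x y, x ≠ y → col y x = col x y
  lt : ∀ x y, x ≠ y → (col x y).2 < w
  val_lt : ∀ x i p, p < w → val x i p < w
  ne : ∀ x y, x ≠ y → val x (col x y).1 (col x y).2 ≠ val y (col x y).1 (col x y).2
  tri : ∀ x y z, x ≠ y → y ≠ z → x ≠ z → ¬ (col x y = col y z ∧ col x y = col x z)

/-- A code: words of length `m` over `{0, ..., k - 1}`, pairwise different in at least `l`
places. -/
def IsCode (m k l : ℕ) (Z : Finset (Fin m → ℕ)) : Prop :=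
  (∀ z ∈ Z, ∀ i, z i < k) ∧
    ∀ z ∈ Z, ∀ z' ∈ Z, z ≠ z' → l ≤ (Finset.univ.filter fun i => z i ≠ z' i).card

/-- The number of players needed for `q` hat colours. -/
def ell (q : ℕ) : ℕ := (q * (Nat.clog 2 q + 1)) ^ 2 * Nat.clog 2 q + 1

end Pool.Agent.TriSup
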