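import Mathlib

/-!
# Superexponential growth of `r(3; q)`, constant `1 / 2`: definitions

Adaptive hat guessing.  The symbols (natural numbers) are revealed from the largest to the
smallest; a left player may use everything that was revealed before the symbol he bets on.
-/

namespace Pool.Agent.TriSup

open Finset

/-- Two hat assignments agree above `u` on `I`: the same players of `I` have the hats `v`, for
every `v > u`. -/
def Agree {m : ℕ} (I : Finset (Fin m)) (u : ℕ) (x x' : Fin m → ℕ) : Prop :=
  ∀ k ∈ I, ∀ v, u < v → (x k = v ↔ x' k = v)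

/-- The players have a strategy against all hats `x` with `HL x` (left) and `y` with `HR y`
(right).  `WL x y i`: the left player `i` bets right; `WR x y i`: the right player `i` bets
right.  The left players are adaptive. -/
def Wins2 {m : ℕ} (I : Finset (Fin m)) (HL HR : (Fin m → ℕ) → Prop) : Prop :=
  ∃ WL WR : (Fin m → ℕ) → (Fin m → ℕ) → Fin m → Prop,
    (∀ x x' y, ∀ i ∈ I, HL x → HL x' → HR y → WL x y i → WL x' y i →
      Agree I (max (x i) (x' i)) x x' → x i = x' i) ∧
    (∀ x y y', ∀ i ∈ I, WR x y i → WR x y' i → y i = y' i) ∧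
    (∀ x y, HL x → HR y → ∃ i ∈ I, WL x y i ∨ WR x y i)

/-- A colouring of the pairs of `X` with colours `(i, p)`, `p < ρ i`, without monochromatic
triangle; `val x i p` is the symbol of the point `x` at the coordinate `(i, p)`, a number `< N`
with `i ∈ M (val x i p)`. The colour of a pair is a coordinate where the symbols differ, and the
two points agree above the larger one of the two symbols. -/
structure Sys2 (m : ℕ) (M : ℕ → Finset (Fin m)) (N : ℕ) (ρ : Fin m → ℕ) (X : Type) where
  col : X → X → Fin m × ℕ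
  val : X → Fin m → ℕ → ℕ
  symm : ∀ x y, x ≠ y → col y x = col x y
  lt : ∀ x y, x ≠ y → (col x y).2 < ρ (col x y).1
  val_lt : ∀ x i p, p < ρ i → val x i p < N
  val_mem : ∀ x i p, p < ρ i → i ∈ M (val x i p)
  ne : ∀ x y, x ≠ y → val x (col x y).1 (col x y).2 ≠ val y (col x y).1 (col x y).2
  pre : ∀ x y, x ≠ y → ∀ i p v, p < ρ i →
    max (val x (col x y).1 (col x y).2) (val y (col x y).1 (col x y).2) < v →
      (val x i p = v ↔ val y i p = v)
  tri : ∀ x y z, x ≠ y → y ≠ z → x ≠ z → ¬ (col x y = col y z ∧ col x y = col x z)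

/-- A code at a level: for `i ∈ A` the letter `z i` is one of `0, ..., ρ i`, for `i ∉ A` it is
`ρ i`; different words differ in at least `l` places. -/
def IsCode2 {m : ℕ} (A : Finset (Fin m)) (ρ : Fin m → ℕ) (l : ℕ) (Z : Finset (Fin m → ℕ)) :
    Prop :=
  (∀ z ∈ Z, (∀ i ∈ A, z i ≤ ρ i) ∧ ∀ i ∉ A, z i = ρ i) ∧
    ∀ z ∈ Z, ∀ z' ∈ Z, z ≠ z' → l ≤ (univ.filter fun i => z i ≠ z' i).card

end Pool.Agent.TriSup
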