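import Mathlib

/-!
# A design: every part acts once in every round, and two groups of different rounds have few
parts in common
-/

namespace Pool.Agent.TriSup

open Finset

/-- For a prime `G`, `w = G ^ k` rounds and `m = G ^ (k + 1) * c` parts there is a function
`f i b` (the group, `< G`, of the part `i` in the round `b`) such that each group has at most
`G ^ (k - 1) * c` parts in common with each group of another round. -/
theorem exists_design (G k c : ℕ) (hG : G.Prime) (hk : 1 ≤ k) :
    ∃ f : Fin (G ^ (k + 1) * c) → ℕ → ℕ, (∀ i b, f i b < G) ∧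
      ∀ b b', b < G ^ k → b' < G ^ k → b ≠ b' → ∀ g g',
        (univ.filter fun i => f i b = g ∧ f i b' = g').card ≤ G ^ (k - 1) * c := by
  classical
  have hfact : Fact G.Prime := ⟨hG⟩
  have e1 : Nonempty (Fin (G ^ (k + 1) * c) ≃ (ZMod G × (Fin k → ZMod G) × Fin c)) := by
    refine ⟨Fintype.equivOfCardEq ?_⟩
    rw [Fintype.card_fin, Fintype.card_prod, Fintype.card_prod, Fintype.card_fun, ZMod.card,
      Fintype.card_fin, Fintype.card_fin, pow_succ]
    ring
  obtain ⟨e⟩ := e1
  have e2 : Nonempty (Fin (G ^ k) ≃ (Fin k → ZMod G)) := by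
    refine ⟨Fintype.equivOfCardEq ?_⟩
    rw [Fintype.card_fin, Fintype.card_fun, ZMod.card, Fintype.card_fin]
  obtain ⟨d⟩ := e2
  obtain ⟨D, hD⟩ : ∃ D : ℕ → Fin k → ZMod G, ∀ b (hb : b < G ^ k), D b = d ⟨b, hb⟩ :=
    ⟨fun b => if hb : b < G ^ k then d ⟨b, hb⟩ else 0, fun b hb => dif_pos hb⟩
  refine ⟨fun i b => ((e i).1 + ∑ t, D b t * (e i).2.1 t : ZMod G).val,
    fun i b => ZMod.val_lt _, ?_⟩
  intro b b' hb hb' hbb g g'
  have hne : D b ≠ D b' := by
    rw [hD b hb, hD b' hb']
    intro h
    have h1 := d.injective h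
    rw [Fin.mk.injEq] at h1
    exact hbb h1
  obtain ⟨t0, ht0⟩ : ∃ t0, D b t0 ≠ D b' t0 := by
    by_contra hcon
    push Not at hcon
    exact hne (funext hcon)
  have hcard : Fintype.card (({t : Fin k // t ≠ t0} → ZMod G) × Fin c) = G ^ (k - 1) * c := by
    rw [Fintype.card_prod, Fintype.card_fun, ZMod.card, Fintype.card_fin,
      Fintype.card_subtype_compl, Fintype.card_subtype_eq, Fintype.card_fin]
  rw [← hcard, ← card_univ]
  refine card_le_card_of_injOn
    (fun i => ((fun t : {t : Fin k // t ≠ t0} => (e i).2.1 t.1), (e i).2.2)) ?_ ?_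
  · intro i _
    exact mem_univ _
  · intro i hi j hj hij
    simp only [coe_filter, mem_univ, true_and, Set.mem_ofPred_eq] at hi hj
    simp only [Prod.mk.injEq] at hij
    obtain ⟨h1, h2⟩ := hij
    have h1' : ∀ t, t ≠ t0 → (e i).2.1 t = (e j).2.1 t := fun t ht => congrFun h1 ⟨t, ht⟩
    have hb1 : (e i).1 + ∑ t, D b t * (e i).2.1 t = (e j).1 + ∑ t, D b t * (e j).2.1 t :=
      ZMod.val_injective G (hi.1.trans hj.1.symm)
    have hb2 : (e i).1 + ∑ t, D b' t * (e i).2.1 t = (e j).1 + ∑ t, D b' t * (e j).2.1 t :=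
      ZMod.val_injective G (hi.2.trans hj.2.symm)
    have hdiff : ∀ β : ℕ, ∑ t, D β t * (e i).2.1 t - ∑ t, D β t * (e j).2.1 t =
        D β t0 * ((e i).2.1 t0 - (e j).2.1 t0) := by
      intro β
      rw [← sum_sub_distrib, sum_eq_single t0]
      · ring
      · intro t _ ht
        rw [h1' t ht, sub_self]
      · intro h
        exact absurd (mem_univ t0) h
    have h3 := hdiff b
    have h4 := hdiff b'
    have h5 : (D b t0 - D b' t0) * ((e i).2.1 t0 - (e j).2.1 t0) = 0 := by
      linear_combination -h3 + h4 + hb1 - hb2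
    have h6 : (e i).2.1 t0 = (e j).2.1 t0 := by
      rcases mul_eq_zero.1 h5 with h7 | h7
      · exact absurd (sub_eq_zero.1 h7) ht0
      · exact sub_eq_zero.1 h7
    have h7 : (e i).2.1 = (e j).2.1 := by
      funext t
      by_cases ht : t = t0
      · rw [ht]; exact h6
      · exact h1' t ht
    have h8 : (e i).1 = (e j).1 := by
      rw [h7] at hb1
      exact add_right_cancel hb1
    exact e.injective (Prod.ext h8 (Prod.ext h7 h2))

end Pool.Agent.TriSup
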