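import Pool.Agent.TriSup.Defs2

/-!
# The canonical list of facts about a hat assignment
-/

namespace Pool.Agent.TriSup

open Finset

private theorem facts_exists (V : Finset ℕ) (k : ℕ) (hk : k < V.card) :
    ∃ a ∈ V, (V.filter (fun b => a < b)).card = k := by
  induction k with
  | zero =>
    have hV : V.Nonempty := card_pos.1 hk
    refine ⟨V.max' hV, V.max'_mem hV, ?_⟩
    rw [card_eq_zero, filter_eq_empty_iff]
    intro b hb h
    exact absurd (V.le_max' b hb) (not_le.2 h)
  | succ k ih =>
    obtain ⟨a, ha, hc⟩ := ih (by omega)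
    have hW : (V.filter (fun b => b < a)).Nonempty := by
      by_contra hne
      rw [not_nonempty_iff_eq_empty] at hne
      have hV : V ⊆ insert a (V.filter (fun b => a < b)) := by
        intro b hb
        rcases lt_trichotomy b a with h | h | h
        · have : b ∈ V.filter (fun b => b < a) := mem_filter.2 ⟨hb, h⟩
          rw [hne] at this
          exact absurd this (notMem_empty b)
        · exact mem_insert.2 (Or.inl h)
        · exact mem_insert.2 (Or.inr (mem_filter.2 ⟨hb, h⟩))
      have := card_le_card hV
      have h2 := card_insert_le a (V.filter (fun b => a < b))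
      omega
    refine ⟨(V.filter (fun b => b < a)).max' hW,
      (mem_filter.1 ((V.filter (fun b => b < a)).max'_mem hW)).1, ?_⟩
    have hlt : (V.filter (fun b => b < a)).max' hW < a :=
      (mem_filter.1 ((V.filter (fun b => b < a)).max'_mem hW)).2
    have he : V.filter (fun b => (V.filter (fun b => b < a)).max' hW < b) =
        insert a (V.filter (fun b => a < b)) := by
      ext b
      constructor
      · intro h
        obtain ⟨h1, h2⟩ := mem_filter.1 h
        rcases lt_trichotomy b a with h | h | h
        · exact absurd ((V.filter (fun b => b < a)).le_max' b (mem_filter.2 ⟨h1, h⟩)) (not_le.2 h2)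
        · exact mem_insert.2 (Or.inl h)
        · exact mem_insert.2 (Or.inr (mem_filter.2 ⟨h1, h⟩))
      · intro h
        rcases mem_insert.1 h with h | h
        · subst h
          exact mem_filter.2 ⟨ha, hlt⟩
        · obtain ⟨h1, h2⟩ := mem_filter.1 h
          exact mem_filter.2 ⟨h1, hlt.trans h2⟩
    rw [he, card_insert_of_notMem, hc]
    intro h
    exact absurd (mem_filter.1 h).2 (lt_irrefl a)

private theorem facts_anti (V : Finset ℕ) {a a' : ℕ} (h : a ≤ a') :
    (V.filter (fun b => a' < b)).card ≤ (V.filter (fun b => a < b)).card := by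
  refine card_le_card fun b hb => ?_
  obtain ⟨h1, h2⟩ := mem_filter.1 hb
  exact mem_filter.2 ⟨h1, h.trans_lt h2⟩

private theorem facts_unique (V : Finset ℕ) {a a' k : ℕ} (ha : a ∈ V) (ha' : a' ∈ V)
    (hc : (V.filter (fun b => a < b)).card = k) (hc' : (V.filter (fun b => a' < b)).card = k) :
    a = a' := by
  have key : ∀ a a' : ℕ, a' ∈ V → a < a' → (V.filter (fun b => a' < b)).card <
      (V.filter (fun b => a < b)).card := by
    intro a a' ha' h
    refine card_lt_card ⟨fun b hb => ?_, fun hs => ?_⟩
    · obtain ⟨h1, h2⟩ := mem_filter.1 hb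
      exact mem_filter.2 ⟨h1, h.trans h2⟩
    · have := hs (mem_filter.2 ⟨ha', h⟩)
      exact absurd (mem_filter.1 this).2 (lt_irrefl a')
  rcases lt_trichotomy a a' with h | h | h
  · have := key a a' ha' h
    omega
  · exact h
  · have := key a' a ha h
    omega

/-- The facts `θ x 0, θ x 1, ...`: the `k`-th fact is `(j, a)` where `a` is the `k`-th largest
value of `x` on `I` and `j` is the least element of `I` with `x j = a`. -/
theorem exists_facts {m : ℕ} (hm : 1 ≤ m) (I : Finset (Fin m)) :
    ∃ θ : (Fin m → ℕ) → ℕ → Fin m × ℕ,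
      (∀ x k, k < (I.image x).card → (θ x k).1 ∈ I ∧ x (θ x k).1 = (θ x k).2) ∧
      (∀ x k k', k < k' → k' < (I.image x).card → (θ x k').2 < (θ x k).2) ∧
      (∀ x x' k u, k < (I.image x).card → k < (I.image x').card → Agree I u x x' →
        u < (θ x k).2 → θ x' k = θ x k) := by
  classical
  -- the values
  have hval : ∀ (V : Finset ℕ) (k : ℕ), ∃ a : ℕ, k < V.card →
      a ∈ V ∧ (V.filter (fun b => a < b)).card = k := by
    intro V k
    by_cases hk : k < V.card
    · obtain ⟨a, h1, h2⟩ := facts_exists V k hk
      exact ⟨a, fun _ => ⟨h1, h2⟩⟩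
    · exact ⟨0, fun h => absurd h hk⟩
  choose val hval using hval
  -- the players
  have hpl : ∀ J : Finset (Fin m), ∃ j : Fin m, J.Nonempty → j ∈ J := by
    intro J
    by_cases hJ : J.Nonempty
    · exact ⟨J.min' hJ, fun _ => J.min'_mem hJ⟩
    · exact ⟨⟨0, hm⟩, fun h => absurd h hJ⟩
  choose pl hpl using hpl
  refine ⟨fun x k => (pl (I.filter (fun j => x j = val (I.image x) k)), val (I.image x) k),
    ?_, ?_, ?_⟩
  · intro x k hk
    obtain ⟨h1, -⟩ := hval (I.image x) k hk
    obtain ⟨j, hj, hj2⟩ := mem_image.1 h1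
    have h2 := hpl (I.filter (fun j => x j = val (I.image x) k)) ⟨j, mem_filter.2 ⟨hj, hj2⟩⟩
    exact mem_filter.1 h2
  · intro x k k' hkk hk'
    obtain ⟨-, h1⟩ := hval (I.image x) k (hkk.trans hk')
    obtain ⟨-, h2⟩ := hval (I.image x) k' hk'
    by_contra hcon
    have h3 := facts_anti (I.image x) (not_lt.1 hcon)
    simp only at h3
    omega
  · intro x x' k u hk hk' hag hu
    obtain ⟨h1, h2⟩ := hval (I.image x) k hk
    obtain ⟨h3, h4⟩ := hval (I.image x') k hk'
    simp only at hu
    have hmem : ∀ b, u < b → (b ∈ I.image x ↔ b ∈ I.image x') := by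
      intro b hb
      simp only [mem_image]
      constructor
      · rintro ⟨j, hj, hj2⟩
        exact ⟨j, hj, (hag j hj b hb).1 hj2⟩
      · rintro ⟨j, hj, hj2⟩
        exact ⟨j, hj, (hag j hj b hb).2 hj2⟩
    have h5 : (I.image x').filter (fun b => val (I.image x) k < b) =
        (I.image x).filter (fun b => val (I.image x) k < b) := by
      ext b
      simp only [mem_filter]
      constructor
      · rintro ⟨hb, hb2⟩
        exact ⟨(hmem b (hu.trans hb2)).2 hb, hb2⟩
      · rintro ⟨hb, hb2⟩
        exact ⟨(hmem b (hu.trans hb2)).1 hb, hb2⟩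
    have h6 : val (I.image x') k = val (I.image x) k := by
      refine facts_unique (I.image x') h3 ((hmem _ hu).1 h1) h4 ?_
      rw [h5, h2]
    have h7 : I.filter (fun j => x' j = val (I.image x') k) =
        I.filter (fun j => x j = val (I.image x) k) := by
      rw [h6]
      ext j
      simp only [mem_filter]
      constructor
      · rintro ⟨hj, hj2⟩
        exact ⟨hj, (hag j hj _ hu).2 hj2⟩
      · rintro ⟨hj, hj2⟩
        exact ⟨hj, (hag j hj _ hu).1 hj2⟩
    simp only
    rw [h7, h6]

end Pool.Agent.TriSup
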