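import Pool.Agent.TriSup.Half

/-!
# A family of functions such that every set of the right size is mapped onto by one of them
-/

namespace Pool.Agent.TriSup

open Finset

private lemma family_aux {D : Type} [Fintype D] [DecidableEq D] (q : ℕ) (hq : 1 ≤ q) (b : ℕ) :
    ∀ F : Finset (Finset D), (∀ A ∈ F, A.card = q * (Nat.clog 2 q + 1)) → F.card < 2 ^ b →
      ∃ g : Fin b → D → Fin q, ∀ A ∈ F, ∃ i, ∀ v, ∃ x ∈ A, g i x = v := by
  classical
  induction b with
  | zero =>
    intro F _ hc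
    refine ⟨fun i => i.elim0, fun A hA => ?_⟩
    have : 0 < F.card := card_pos.2 ⟨A, hA⟩
    rw [pow_zero] at hc
    omega
  | succ b ih =>
    intro F hF hc
    have : Nonempty (Fin q) := ⟨⟨0, hq⟩⟩
    obtain ⟨g0, hg0⟩ : ∃ g0 : D → Fin q,
        2 * (F.filter fun A => ¬ ∀ v, ∃ x ∈ A, g0 x = v).card ≤ F.card := by
      by_contra hcon
      push Not at hcon
      have h1 : ∑ _g : D → Fin q, F.card < ∑ g : D → Fin q,
          2 * (F.filter fun A => ¬ ∀ v, ∃ x ∈ A, g x = v).card :=
        sum_lt_sum_of_nonempty univ_nonempty fun g _ => by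
          have := hcon g
          push Not
          exact this
      have h2 : ∑ g : D → Fin q, 2 * (F.filter fun A => ¬ ∀ v, ∃ x ∈ A, g x = v).card =
          ∑ A ∈ F, 2 * (univ.filter fun g : D → Fin q => ¬ ∀ v, ∃ x ∈ A, g x = v).card := by
        rw [← mul_sum, ← mul_sum]
        congr 1
        simp only [card_filter]
        exact sum_comm
      have h3 : ∑ A ∈ F, 2 * (univ.filter fun g : D → Fin q => ¬ ∀ v, ∃ x ∈ A, g x = v).card ≤
          ∑ _A ∈ F, Fintype.card (D → Fin q) :=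
        sum_le_sum fun A hA => half_onto q hq A (hF A hA)
      rw [sum_const, card_univ, smul_eq_mul] at h1
      rw [sum_const, smul_eq_mul] at h3
      rw [h2] at h1
      have h4 := lt_of_lt_of_le h1 h3
      rw [mul_comm] at h4
      exact lt_irrefl _ h4
    obtain ⟨g, hg⟩ := ih (F.filter fun A => ¬ ∀ v, ∃ x ∈ A, g0 x = v)
      (fun A hA => hF A (mem_filter.1 hA).1) (by rw [pow_succ] at hc; omega)
    refine ⟨Fin.cons g0 g, fun A hA => ?_⟩
    by_cases h : ∀ v, ∃ x ∈ A, g0 x = v
    · exact ⟨0, h⟩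
    · obtain ⟨i, hi⟩ := hg A (mem_filter.2 ⟨hA, h⟩)
      exact ⟨i.succ, hi⟩

/-- A family of `b` functions such that every `s`-set is mapped onto by one of them. -/
lemma exists_family {D : Type} [Fintype D] [DecidableEq D] (q : ℕ) (hq : 1 ≤ q) (b : ℕ)
    (hb : (Fintype.card D) ^ (q * (Nat.clog 2 q + 1)) < 2 ^ b) :
    ∃ g : Fin b → D → Fin q, ∀ A : Finset D, A.card = q * (Nat.clog 2 q + 1) →
      ∃ i, ∀ v, ∃ x ∈ A, g i x = v := by
  classical
  obtain ⟨g, hg⟩ := family_aux q hq b (powersetCard (q * (Nat.clog 2 q + 1)) (univ : Finset D))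
    (fun A hA => (mem_powersetCard.1 hA).2) (by
      rw [card_powersetCard, card_univ]
      exact lt_of_le_of_lt (Nat.choose_le_pow _ _) hb)
  exact ⟨g, fun A hA => hg A (mem_powersetCard.2 ⟨subset_univ _, hA⟩)⟩

end Pool.Agent.TriSup
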