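import Pool.Agent.TriSup.Defs

/-!
# Most functions are onto on a large set
-/

namespace Pool.Agent.TriSup

open Finset

private lemma half_bern (p : ℕ) : ∀ n : ℕ, p ^ n * (p + n) ≤ (p + 1) ^ n * p := by
  intro n
  induction n with
  | zero => simp
  | succ n ih =>
    calc p ^ (n + 1) * (p + (n + 1)) = p ^ n * (p * (p + (n + 1))) := by ring
      _ ≤ p ^ n * ((p + 1) * (p + n)) := Nat.mul_le_mul_left _ (by nlinarith)
      _ = (p + 1) * (p ^ n * (p + n)) := by ring
      _ ≤ (p + 1) * ((p + 1) ^ n * p) := Nat.mul_le_mul_left _ ih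
      _ = (p + 1) ^ (n + 1) * p := by ring

private lemma half_two (q : ℕ) (hq : 1 ≤ q) : 2 * (q - 1) ^ q ≤ q ^ q := by
  obtain ⟨p, rfl⟩ : ∃ p, q = p + 1 := ⟨q - 1, by omega⟩
  rw [Nat.add_sub_cancel]
  rcases Nat.eq_zero_or_pos p with rfl | hp
  · simp
  · have h1 := half_bern p (p + 1)
    refine Nat.le_of_mul_le_mul_right (le_trans ?_ h1) hp
    calc 2 * p ^ (p + 1) * p = p ^ (p + 1) * (2 * p) := by ring
      _ ≤ p ^ (p + 1) * (p + (p + 1)) := Nat.mul_le_mul_left _ (by omega)

private lemma half_main (q : ℕ) (hq : 1 ≤ q) :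
    2 * (q * (q - 1) ^ (q * (Nat.clog 2 q + 1))) ≤ q ^ (q * (Nat.clog 2 q + 1)) := by
  have h1 : q ≤ 2 ^ Nat.clog 2 q := Nat.le_pow_clog (by norm_num) q
  calc 2 * (q * (q - 1) ^ (q * (Nat.clog 2 q + 1)))
      ≤ 2 * (2 ^ Nat.clog 2 q * (q - 1) ^ (q * (Nat.clog 2 q + 1))) :=
        Nat.mul_le_mul_left _ (Nat.mul_le_mul_right _ h1)
    _ = (2 * (q - 1) ^ q) ^ (Nat.clog 2 q + 1) := by
        rw [mul_pow, ← pow_mul, pow_succ]
        ring
    _ ≤ (q ^ q) ^ (Nat.clog 2 q + 1) := Nat.pow_le_pow_left (half_two q hq) _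
    _ = q ^ (q * (Nat.clog 2 q + 1)) := by rw [← pow_mul]

/-- If `A` has `q * (clog₂ q + 1)` elements, at most half of all functions are not onto on `A`. -/
lemma half_onto {D : Type} [Fintype D] [DecidableEq D] (q : ℕ) (hq : 1 ≤ q) (A : Finset D)
    (hA : A.card = q * (Nat.clog 2 q + 1)) :
    2 * (univ.filter fun g : D → Fin q => ¬ ∀ v, ∃ x ∈ A, g x = v).card ≤
      Fintype.card (D → Fin q) := by
  classical
  obtain ⟨s, hs⟩ : ∃ s, s = q * (Nat.clog 2 q + 1) := ⟨_, rfl⟩
  have hmain := half_main q hq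
  rw [← hs] at hA hmain
  have hsN : s ≤ Fintype.card D := by
    rw [← hA, ← card_univ]
    exact card_le_card (subset_univ A)
  have hsub : (univ.filter fun g : D → Fin q => ¬ ∀ v, ∃ x ∈ A, g x = v) ⊆
      (univ : Finset (Fin q)).biUnion fun v =>
        Fintype.piFinset fun x : D => if x ∈ A then univ.erase v else univ := by
    intro g hg
    rw [mem_filter] at hg
    have h1 := hg.2
    push Not at h1
    obtain ⟨v, hv⟩ := h1
    rw [mem_biUnion]
    refine ⟨v, mem_univ _, ?_⟩
    rw [Fintype.mem_piFinset]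
    intro x
    by_cases hx : x ∈ A
    · rw [if_pos hx, mem_erase]
      exact ⟨hv x hx, mem_univ _⟩
    · rw [if_neg hx]
      exact mem_univ _
  have hcard : ∀ v : Fin q, (Fintype.piFinset fun x : D =>
      if x ∈ A then univ.erase v else (univ : Finset (Fin q))).card =
        (q - 1) ^ s * q ^ (Fintype.card D - s) := by
    intro v
    rw [Fintype.card_piFinset]
    have h1 : ∀ x : D, (if x ∈ A then univ.erase v else (univ : Finset (Fin q))).card =
        if x ∈ A then q - 1 else q := by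
      intro x
      split_ifs
      · rw [card_erase_of_mem (mem_univ v), card_univ, Fintype.card_fin]
      · rw [card_univ, Fintype.card_fin]
    rw [prod_congr rfl fun x _ => h1 x, prod_ite, prod_const, prod_const]
    congr 2
    · rw [← hA]
      congr 1
      ext x
      simp
    · rw [← hA, ← card_compl]
      congr 1
      ext x
      simp
  calc 2 * (univ.filter fun g : D → Fin q => ¬ ∀ v, ∃ x ∈ A, g x = v).card
      ≤ 2 * (q * ((q - 1) ^ s * q ^ (Fintype.card D - s))) := by
        refine Nat.mul_le_mul_left _ ((card_le_card hsub).trans ?_)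
        refine card_biUnion_le.trans ?_
        rw [sum_congr rfl fun v _ => hcard v, sum_const, card_univ, Fintype.card_fin, smul_eq_mul]
    _ = 2 * (q * (q - 1) ^ s) * q ^ (Fintype.card D - s) := by ring
    _ ≤ q ^ s * q ^ (Fintype.card D - s) := Nat.mul_le_mul_right _ hmain
    _ = Fintype.card (D → Fin q) := by
        rw [← pow_add, Nat.add_sub_cancel' hsN, Fintype.card_fun, Fintype.card_fin]

end Pool.Agent.TriSup
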