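import Pool.Agent.TriSup.Lower2

/-!
# The parameters for the constant `1 / 2`
-/

namespace Pool.Agent.TriSup

open Filter Pool.Agent.TriGrow

private lemma half_clog (w : ℕ) (hw : 1 ≤ w) : (Nat.clog 2 w : ℝ) + 1 ≤ 2 * Real.log w + 2 := by
  have h1 : ⌈Real.logb 2 (w : ℝ)⌉₊ = Nat.clog 2 w := by
    have := Real.natCeil_logb_natCast 2 w
    push_cast at this
    exact this
  have hw' : (1 : ℝ) ≤ w := by exact_mod_cast hw
  have h2 : 0 ≤ Real.logb 2 (w : ℝ) := Real.logb_nonneg (by norm_num) hw'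
  have h3 := Nat.ceil_lt_add_one h2
  rw [h1] at h3
  have h4 : Real.logb 2 (w : ℝ) ≤ 2 * Real.log w := by
    rw [Real.logb, div_le_iff₀ (Real.log_pos (by norm_num))]
    have h5 : 0 ≤ Real.log (w : ℝ) := Real.log_nonneg hw'
    have h6 : (0.6931471803 : ℝ) < Real.log 2 := Real.log_two_gt_d9
    nlinarith
  linarith

private lemma half_log (δ : ℝ) (hδ : 0 < δ) (K : ℕ) :
    ∀ᶠ G : ℕ in atTop, (K : ℝ) * (Nat.clog 2 G : ℝ) ^ 4 ≤ δ * G := by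
  have hK : (0 : ℝ) < 81 * ((K : ℝ) + 1) := by positivity
  have h1 : ∀ᶠ x : ℝ in atTop, ‖Real.log x ^ 4‖ ≤ δ / (81 * ((K : ℝ) + 1)) * ‖id x‖ :=
    (Real.isLittleO_pow_log_id_atTop (n := 4)).def (by positivity)
  filter_upwards [tendsto_natCast_atTop_atTop.eventually h1, eventually_ge_atTop 3] with G h1 hG
  have hG1 : (1 : ℝ) ≤ G := by exact_mod_cast (show 1 ≤ G by omega)
  have hG3 : (3 : ℝ) ≤ G := by exact_mod_cast hG
  have hlog : (1 : ℝ) ≤ Real.log G := by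
    rw [Real.le_log_iff_exp_le (by linarith)]
    have := Real.exp_one_lt_d9
    linarith
  have h2 := half_clog G (by omega)
  have h3 : (Nat.clog 2 G : ℝ) ≤ 3 * Real.log G := by linarith
  rw [id, Real.norm_of_nonneg (by positivity), Real.norm_of_nonneg (by positivity)] at h1
  have h4 : (Nat.clog 2 G : ℝ) ^ 4 ≤ 81 * Real.log G ^ 4 := by
    calc (Nat.clog 2 G : ℝ) ^ 4 ≤ (3 * Real.log G) ^ 4 := by gcongr
      _ = 81 * Real.log G ^ 4 := by ring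
  calc (K : ℝ) * (Nat.clog 2 G : ℝ) ^ 4 ≤ K * (81 * Real.log G ^ 4) := by gcongr
    _ ≤ K * (81 * (δ / (81 * ((K : ℝ) + 1)) * G)) := by gcongr
    _ = (K / ((K : ℝ) + 1)) * (δ * G) := by field_simp
    _ ≤ 1 * (δ * G) := by
        have : (K : ℝ) / ((K : ℝ) + 1) ≤ 1 := by
          rw [div_le_one (by positivity)]
          linarith
        gcongr
    _ = δ * G := one_mul _

/-- the constant -/
private def hK (k : ℕ) : ℕ := 4 * (k + 1) ^ 2 * (k + 2) * (4 * k + 7) + 1 + 4 * (k + 1) ^ 2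

private lemma half_nat (G k c q : ℕ) (hG : G.Prime) (hk : 1 ≤ k) (hq : G ^ (2 * k + 1) * c ≤ q)
    (hc2 : G ^ 2 ≤ c) (hc3 : c ≤ 2 ^ (2 * k + 3) * G ^ 2) : ∃ E : ℕ,
    (G ^ k).factorial ^ (G ^ (k + 1) * c) < r3 (G ^ k * (G ^ (k + 1) * c)) *
      (G ^ k * (G ^ (k + 1) * c)) ^ E ∧ E * G ≤ hK k * Nat.clog 2 G ^ 4 * q := by
  obtain ⟨L, hL⟩ : ∃ L, L = Nat.clog 2 G := ⟨_, rfl⟩
  obtain ⟨N, hN⟩ : ∃ N, N = G ^ (k + 1) := ⟨_, rfl⟩
  have hG2 : 2 ≤ G := hG.two_le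
  have hG0 : 0 < G := hG.pos
  have hGL : G ≤ 2 ^ L := by rw [hL]; exact Nat.le_pow_clog (by norm_num) G
  have hL1 : 1 ≤ L := by
    rw [hL]
    exact Nat.clog_pos (by norm_num) hG2
  have hN1 : 1 ≤ N := by rw [hN]; exact Nat.one_le_pow _ _ hG0
  have hNL : N ≤ 2 ^ ((k + 1) * L) := by
    rw [hN, mul_comm, pow_mul]
    exact Nat.pow_le_pow_left hGL _
  have hcN : Nat.clog 2 N ≤ (k + 1) * L := Nat.clog_le_of_le_pow hNL
  obtain ⟨s, hs⟩ : ∃ s, s = N * (Nat.clog 2 N + 1) := ⟨_, rfl⟩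
  have hs1 : s ≤ N * ((k + 2) * L) := by
    rw [hs]
    refine Nat.mul_le_mul_left _ ?_
    nlinarith
  have hs2 : s ≤ 2 ^ (2 * (k + 1) * L) := by
    have h1 : Nat.clog 2 N + 1 ≤ 2 ^ ((k + 1) * L) :=
      (Nat.succ_le_succ hcN).trans Nat.lt_two_pow_self
    calc s ≤ 2 ^ ((k + 1) * L) * 2 ^ ((k + 1) * L) := by
          rw [hs]; exact Nat.mul_le_mul hNL h1
      _ = 2 ^ (2 * (k + 1) * L) := by rw [← pow_add]; congr 1; ring
  obtain ⟨T, hT⟩ : ∃ T, T = Nat.clog 2 s := ⟨_, rfl⟩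
  have hT1 : s ≤ 2 ^ T := by rw [hT]; exact Nat.le_pow_clog (by norm_num) s
  have hT2 : T ≤ 2 * (k + 1) * L := by rw [hT]; exact Nat.clog_le_of_le_pow hs2
  obtain ⟨R, hR⟩ : ∃ R, R = G ^ (k + 1) * c * G ^ (k + 1) := ⟨_, rfl⟩
  have hR1 : R ≤ 2 ^ ((4 * k + 7) * L) := by
    calc R ≤ G ^ (k + 1) * (2 ^ (2 * k + 3) * G ^ 2) * G ^ (k + 1) := by
          rw [hR]; gcongr
      _ = 2 ^ (2 * k + 3) * G ^ (2 * k + 4) := by ring
      _ ≤ (2 ^ L) ^ (2 * k + 3) * (2 ^ L) ^ (2 * k + 4) := by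
          refine Nat.mul_le_mul ?_ (Nat.pow_le_pow_left hGL _)
          refine Nat.pow_le_pow_left ?_ _
          calc 2 = 2 ^ 1 := rfl
            _ ≤ 2 ^ L := Nat.pow_le_pow_right (by norm_num) hL1
      _ = 2 ^ ((4 * k + 7) * L) := by rw [← pow_add, ← pow_mul]; congr 1; ring
  have hcR : Nat.clog 2 R ≤ (4 * k + 7) * L := Nat.clog_le_of_le_pow hR1
  obtain ⟨b, hb⟩ : ∃ b, b = T * T * s * Nat.clog 2 R + 1 := ⟨_, rfl⟩
  have hb1 : (R ^ (T * T)) ^ s < 2 ^ b := by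
    calc (R ^ (T * T)) ^ s = R ^ (T * T * s) := by rw [← pow_mul]
      _ ≤ (2 ^ Nat.clog 2 R) ^ (T * T * s) :=
          Nat.pow_le_pow_left (Nat.le_pow_clog (by norm_num) R) _
      _ = 2 ^ (T * T * s * Nat.clog 2 R) := by rw [← pow_mul]; congr 1; ring
      _ < 2 ^ b := by rw [hb]; exact Nat.pow_lt_pow_right (by norm_num) (Nat.lt_succ_self _)
  have hc1 : 1 ≤ c := le_trans (Nat.one_le_pow _ _ hG0) hc2
  have key := lower2 G k c T b hG hk hc1 (by rw [← hN, ← hs]; exact hT1)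
    (by rw [← hR, ← hN, ← hs]; exact hb1)
  refine ⟨_, key, ?_⟩
  rw [← hN, ← hL]
  have hTT : T * T ≤ 4 * (k + 1) ^ 2 * L ^ 2 := by
    calc T * T ≤ (2 * (k + 1) * L) * (2 * (k + 1) * L) := Nat.mul_le_mul hT2 hT2
      _ = 4 * (k + 1) ^ 2 * L ^ 2 := by ring
  have hb2 : b ≤ N * (4 * (k + 1) ^ 2 * (k + 2) * (4 * k + 7) * L ^ 4 + 1) := by
    have : T * T * s * Nat.clog 2 R ≤ (4 * (k + 1) ^ 2 * L ^ 2) * (N * ((k + 2) * L)) *
        ((4 * k + 7) * L) := by gcongr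
    rw [hb]
    calc T * T * s * Nat.clog 2 R + 1 ≤ (4 * (k + 1) ^ 2 * L ^ 2) * (N * ((k + 2) * L)) *
        ((4 * k + 7) * L) + N := Nat.add_le_add this hN1
      _ = N * (4 * (k + 1) ^ 2 * (k + 2) * (4 * k + 7) * L ^ 4 + 1) := by ring
  have hqG : G ^ (2 * k + 3) ≤ q := by
    calc G ^ (2 * k + 3) = G ^ (2 * k + 1) * G ^ 2 := by ring
      _ ≤ G ^ (2 * k + 1) * c := Nat.mul_le_mul_left _ hc2
      _ ≤ q := hq
  have e1 : N * G ^ (k - 1) * G = G ^ (2 * k + 1) := by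
    rw [hN]
    obtain ⟨k', rfl⟩ : ∃ k', k = k' + 1 := ⟨k - 1, by omega⟩
    rw [Nat.add_sub_cancel]
    ring
  have e2 : N * N * G = G ^ (2 * k + 3) := by rw [hN]; ring
  have f1 : N * b * G ≤ (4 * (k + 1) ^ 2 * (k + 2) * (4 * k + 7) * L ^ 4 + 1) * q := by
    calc N * b * G ≤ N * (N * (4 * (k + 1) ^ 2 * (k + 2) * (4 * k + 7) * L ^ 4 + 1)) * G := by
          gcongr
      _ = (4 * (k + 1) ^ 2 * (k + 2) * (4 * k + 7) * L ^ 4 + 1) * (N * N * G) := by ring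
      _ ≤ (4 * (k + 1) ^ 2 * (k + 2) * (4 * k + 7) * L ^ 4 + 1) * q := by
          rw [e2]; exact Nat.mul_le_mul_left _ hqG
  have f2 : N * (T * T * (G ^ (k - 1) * c)) * G ≤ (4 * (k + 1) ^ 2 * L ^ 2) * q := by
    calc N * (T * T * (G ^ (k - 1) * c)) * G = T * T * (N * G ^ (k - 1) * G * c) := by ring
      _ ≤ (4 * (k + 1) ^ 2 * L ^ 2) * q := by
          rw [e1]; exact Nat.mul_le_mul hTT hq
  have hL2 : L ^ 2 ≤ L ^ 4 := Nat.pow_le_pow_right hL1 (by norm_num)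
  have hL4 : 1 ≤ L ^ 4 := Nat.one_le_pow _ _ hL1
  calc N * (b + T * T * (G ^ (k - 1) * c)) * G
      = N * b * G + N * (T * T * (G ^ (k - 1) * c)) * G := by ring
    _ ≤ (4 * (k + 1) ^ 2 * (k + 2) * (4 * k + 7) * L ^ 4 + 1) * q +
        (4 * (k + 1) ^ 2 * L ^ 2) * q := Nat.add_le_add f1 f2
    _ ≤ (4 * (k + 1) ^ 2 * (k + 2) * (4 * k + 7) * L ^ 4 + L ^ 4) * q +
        (4 * (k + 1) ^ 2 * L ^ 4) * q := by gcongr
    _ = hK k * L ^ 4 * q := by unfold hK; ring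

private lemma half_core (δ : ℝ) (hδ : 0 < δ) (hδ' : δ ≤ 1 / 6) :
    ∀ᶠ q : ℕ in atTop, ∃ w m : ℕ, w * m ≤ q ∧
      (1 - δ) * (q : ℝ) ≤ (w : ℝ) * m ∧ (q : ℝ) ^ (1 / 2 - δ) ≤ w ∧
      ((w.factorial : ℝ) ^ m) ≤ (r3 (w * m) : ℝ) * (q : ℝ) ^ (δ * q) := by
  obtain ⟨k, hk⟩ : ∃ k : ℕ, k = ⌈3 / δ⌉₊ := ⟨_, rfl⟩
  have hk1 : (3 / δ : ℝ) ≤ k := by rw [hk]; exact Nat.le_ceil _
  have hkpos : 1 ≤ k := by
    rw [hk]
    exact Nat.ceil_pos.2 (by positivity)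
  obtain ⟨D, hD⟩ : ∃ D : ℕ, D = 2 * k + 3 := ⟨_, rfl⟩
  have hDr : (D : ℝ) = 2 * k + 3 := by rw [hD]; push_cast; ring
  have hD0 : (0 : ℝ) < D := by rw [hDr]; positivity
  obtain ⟨G0, hG0⟩ := eventually_atTop.1 ((half_log δ hδ (hK k)).and
    ((tendsto_natCast_atTop_atTop (R := ℝ)).eventually_ge_atTop (1 / δ)))
  have ht : Tendsto (fun q : ℕ => (q : ℝ) ^ (1 / (D : ℝ))) atTop atTop :=
    (tendsto_rpow_atTop (by positivity)).comp tendsto_natCast_atTop_atTop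
  have h2 : ∀ᶠ x : ℝ in atTop, ((2 : ℝ) ^ k) ≤ x ^ (δ / 2) :=
    (tendsto_rpow_atTop (by positivity)).eventually_ge_atTop _
  filter_upwards [ht.eventually_ge_atTop (2 * (G0 : ℝ) + 4),
    tendsto_natCast_atTop_atTop.eventually h2, eventually_ge_atTop 1] with q h1 h2 hq
  have hq' : (1 : ℝ) ≤ q := by exact_mod_cast hq
  have hq0 : (0 : ℝ) < q := by linarith
  obtain ⟨x, hx⟩ : ∃ x : ℝ, x = (q : ℝ) ^ (1 / (D : ℝ)) := ⟨_, rfl⟩
  rw [← hx] at h1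
  have hG0' : (0 : ℝ) ≤ G0 := Nat.cast_nonneg _
  have hx0 : (0 : ℝ) < x := by linarith
  have hxD : x ^ D = q := by
    rw [hx, ← Real.rpow_natCast, ← Real.rpow_mul hq0.le]
    rw [one_div, inv_mul_cancel₀ hD0.ne', Real.rpow_one]
  obtain ⟨P, hP⟩ : ∃ P : ℕ, P = ⌊x⌋₊ := ⟨_, rfl⟩
  have hP1 : (P : ℝ) ≤ x := by rw [hP]; exact Nat.floor_le hx0.le
  have hP2 : x < P + 1 := by rw [hP]; exact Nat.lt_floor_add_one x
  have hP3 : 2 * G0 + 3 ≤ P := by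
    have : ((2 * G0 + 3 : ℕ) : ℝ) < P + 1 := by push_cast; linarith
    have h3 : 2 * G0 + 3 < P + 1 := by exact_mod_cast this
    omega
  obtain ⟨G, hGp, hG1, hG2⟩ := Nat.exists_prime_lt_and_le_two_mul (P / 2) (by omega)
  have hGx : (G : ℝ) ≤ x := by
    have : G ≤ P := by omega
    have : (G : ℝ) ≤ P := by exact_mod_cast this
    linarith
  have hxG : x ≤ 2 * G := by
    have : P + 1 ≤ 2 * G := by omega
    have : (P : ℝ) + 1 ≤ 2 * G := by exact_mod_cast this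
    linarith
  have hGpos : (0 : ℝ) < G := by exact_mod_cast hGp.pos
  obtain ⟨hlog, hGδ⟩ := hG0 G (by omega)
  have hGD : G ^ D ≤ q := by
    have : (G : ℝ) ^ D ≤ q := by
      rw [← hxD]
      gcongr
    exact_mod_cast this
  have hqD : q ≤ 2 ^ D * G ^ D := by
    have : (q : ℝ) ≤ (2 * G) ^ D := by
      rw [← hxD]
      gcongr
    rw [mul_pow] at this
    exact_mod_cast this
  obtain ⟨A, hA⟩ : ∃ A, A = G ^ (2 * k + 1) := ⟨_, rfl⟩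
  have hA0 : 0 < A := by rw [hA]; exact Nat.pow_pos hGp.pos
  have hGA : G ^ D = A * G ^ 2 := by rw [hD, hA]; ring
  obtain ⟨c, hc⟩ : ∃ c, c = q / A := ⟨_, rfl⟩
  have hc1 : A * c ≤ q := by rw [hc]; exact Nat.mul_div_le q A
  have hc2 : G ^ 2 ≤ c := by
    rw [hc, Nat.le_div_iff_mul_le hA0, mul_comm, ← hGA]
    exact hGD
  have hc3 : c ≤ 2 ^ (2 * k + 3) * G ^ 2 := by
    rw [← hD]
    refine Nat.le_of_mul_le_mul_left (c := A) ?_ hA0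
    calc A * c ≤ q := hc1
      _ ≤ 2 ^ D * G ^ D := hqD
      _ = A * (2 ^ D * G ^ 2) := by rw [hGA]; ring
  have hc4 : q < A * c + A := by
    have h3 := Nat.div_add_mod q A
    have h4 := Nat.mod_lt q hA0
    rw [← hc] at h3
    omega
  obtain ⟨E, hE1, hE2⟩ := half_nat G k c q hGp hkpos (by rw [← hA]; exact hc1) hc2 hc3
  have hwm : G ^ k * (G ^ (k + 1) * c) = A * c := by rw [hA]; ring
  refine ⟨G ^ k, G ^ (k + 1) * c, by rw [hwm]; exact hc1, ?_, ?_, ?_⟩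
  · have e1 : (((G ^ k : ℕ) : ℝ)) * ((G ^ (k + 1) * c : ℕ) : ℝ) = (A : ℝ) * c := by
      exact_mod_cast hwm
    rw [e1]
    have e2 : (q : ℝ) ≤ A * c + A := by exact_mod_cast hc4.le
    have e3 : (A : ℝ) * (G : ℝ) ^ 2 ≤ q := by
      have := hGD
      rw [hGA] at this
      exact_mod_cast this
    have e4 : (A : ℝ) ≤ δ * q := by
      have g1 : 1 ≤ δ * G := by
        rw [div_le_iff₀ hδ] at hGδ
        linarith
      have g2 : (1 : ℝ) ≤ G := by exact_mod_cast hGp.one_le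
      have g3 : (0 : ℝ) ≤ A := Nat.cast_nonneg _
      have g4 : 1 ≤ δ * (G : ℝ) ^ 2 := by nlinarith
      calc (A : ℝ) = A * 1 := (mul_one _).symm
        _ ≤ A * (δ * (G : ℝ) ^ 2) := by gcongr
        _ = δ * (A * (G : ℝ) ^ 2) := by ring
        _ ≤ δ * q := by gcongr
    linarith
  · have e1 : (q : ℝ) ^ (1 / 2 - δ) * 2 ^ k ≤ x ^ k := by
      have e2 : x ^ k = (q : ℝ) ^ ((k : ℝ) / D) := by
        rw [hx, ← Real.rpow_natCast, ← Real.rpow_mul hq0.le]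
        congr 1
        field_simp
      rw [e2]
      calc (q : ℝ) ^ (1 / 2 - δ) * 2 ^ k ≤ (q : ℝ) ^ (1 / 2 - δ) * (q : ℝ) ^ (δ / 2) := by gcongr
        _ = (q : ℝ) ^ (1 / 2 - δ + δ / 2) := (Real.rpow_add hq0 _ _).symm
        _ ≤ (q : ℝ) ^ ((k : ℝ) / D) := by
            refine Real.rpow_le_rpow_of_exponent_le hq' ?_
            rw [le_div_iff₀ hD0, hDr]
            rw [div_le_iff₀ hδ] at hk1
            nlinarith
    have e3 : x ^ k ≤ (2 * G) ^ k := by gcongr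
    rw [mul_pow] at e3
    have e4 : (0 : ℝ) < 2 ^ k := by positivity
    have e5 : (q : ℝ) ^ (1 / 2 - δ) * 2 ^ k ≤ (G : ℝ) ^ k * 2 ^ k := by
      rw [mul_comm ((G : ℝ) ^ k)]
      exact e1.trans e3
    push_cast
    exact le_of_mul_le_mul_right e5 e4
  · have e2 : (((G ^ k).factorial : ℝ)) ^ (G ^ (k + 1) * c) ≤
        (r3 (G ^ k * (G ^ (k + 1) * c)) : ℝ) * ((G ^ k * (G ^ (k + 1) * c) : ℕ) : ℝ) ^ E := by
      exact_mod_cast hE1.le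
    have hEδ : (E : ℝ) ≤ δ * q := by
      have g1 : (E : ℝ) * G ≤ (hK k : ℝ) * (Nat.clog 2 G : ℝ) ^ 4 * q := by exact_mod_cast hE2
      have g2 : (E : ℝ) * G ≤ δ * q * G := by
        calc (E : ℝ) * G ≤ (hK k : ℝ) * (Nat.clog 2 G : ℝ) ^ 4 * q := g1
          _ ≤ (δ * G) * q := by gcongr
          _ = δ * q * G := by ring
      exact le_of_mul_le_mul_right g2 hGpos
    have e3 : (((G ^ k * (G ^ (k + 1) * c) : ℕ) : ℝ)) ^ E ≤ (q : ℝ) ^ (δ * q) := by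
      have f1 : (((G ^ k * (G ^ (k + 1) * c) : ℕ) : ℝ)) ≤ q := by
        have : G ^ k * (G ^ (k + 1) * c) ≤ q := by rw [hwm]; exact hc1
        exact_mod_cast this
      calc (((G ^ k * (G ^ (k + 1) * c) : ℕ) : ℝ)) ^ E ≤ (q : ℝ) ^ E := by gcongr
        _ = (q : ℝ) ^ ((E : ℕ) : ℝ) := (Real.rpow_natCast _ _).symm
        _ ≤ (q : ℝ) ^ (δ * q) := Real.rpow_le_rpow_of_exponent_le hq' hEδ
    exact e2.trans (by gcongr)

theorem family_half (δ : ℝ) (hδ : 0 < δ) : ∀ᶠ q : ℕ in atTop, ∃ w m : ℕ, w * m ≤ q ∧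
      (1 - δ) * (q : ℝ) ≤ (w : ℝ) * m ∧ (q : ℝ) ^ (1 / 2 - δ) ≤ w ∧
      ((w.factorial : ℝ) ^ m) ≤ (r3 (w * m) : ℝ) * (q : ℝ) ^ (δ * q) := by
  have hd : 0 < min δ (1 / 6) := lt_min hδ (by norm_num)
  have hd1 : min δ (1 / 6) ≤ δ := min_le_left _ _
  filter_upwards [half_core (min δ (1 / 6)) hd (min_le_right _ _), eventually_ge_atTop 1]
    with q h hq
  obtain ⟨w, m, h1, h2, h3, h4⟩ := h
  have hq' : (1 : ℝ) ≤ q := by exact_mod_cast hq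
  refine ⟨w, m, h1, le_trans ?_ h2, le_trans ?_ h3, h4.trans ?_⟩
  · gcongr
  · exact Real.rpow_le_rpow_of_exponent_le hq' (by linarith)
  · gcongr

end Pool.Agent.TriSup
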