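import Pool.Agent.TriSup.Family

/-!
# Hat guessing on a complete bipartite graph
-/

namespace Pool.Agent.TriSup

open Finset

/-- Hat guessing with `q` hat colours on the complete bipartite graph is winning for the players
if both teams have at least `ell q` members. -/
theorem wins_of_le (q : ℕ) (hq : 1 ≤ q) (m : ℕ) (I : Finset (Fin m)) (hI : ell q ≤ I.card) :
    Wins m q I := by
  classical
  obtain ⟨T, hT⟩ : ∃ T, T = Nat.clog 2 q := ⟨_, rfl⟩
  obtain ⟨s, hs⟩ : ∃ s, s = q * (T + 1) := ⟨_, rfl⟩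
  obtain ⟨b, hb⟩ : ∃ b, b = s ^ 2 * T + 1 := ⟨_, rfl⟩
  have hell : ell q = b := by
    rw [hb, hs, hT]
    rfl
  have hqT : q ≤ 2 ^ T := by
    rw [hT]
    exact Nat.le_pow_clog (by norm_num) q
  have hs1 : 1 ≤ s := by
    rw [hs]
    exact Nat.one_le_iff_ne_zero.2 (Nat.mul_ne_zero (by omega) (by omega))
  have hsb : s ≤ b := by
    rcases Nat.eq_zero_or_pos T with h0 | h0
    · rw [h0] at hqT
      have h1 : q = 1 := by
        rw [pow_zero] at hqT
        omega
      rw [hs, h0, h1]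
      omega
    · rw [hb]
      have h1 : s * 1 ≤ s * s := Nat.mul_le_mul_left s hs1
      have h2 : s ^ 2 * 1 ≤ s ^ 2 * T := Nat.mul_le_mul_left _ h0
      rw [pow_two] at h2 ⊢
      omega
  have : NeZero q := ⟨by omega⟩
  have : NeZero s := ⟨by omega⟩
  have hcard : (Fintype.card (Fin s → Fin q)) ^ (q * (Nat.clog 2 q + 1)) < 2 ^ b := by
    rw [← hT, ← hs, Fintype.card_fun, Fintype.card_fin, Fintype.card_fin, ← pow_mul]
    calc q ^ (s * s) ≤ (2 ^ T) ^ (s * s) := Nat.pow_le_pow_left hqT _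
      _ = 2 ^ (s ^ 2 * T) := by
        rw [← pow_mul, pow_two, mul_comm]
      _ < 2 ^ b := by
        rw [hb]
        exact Nat.pow_lt_pow_right (by norm_num) (Nat.lt_succ_self _)
  obtain ⟨g, hg⟩ := exists_family (D := Fin s → Fin q) q hq b hcard
  rw [← hT, ← hs] at hg
  rw [hell] at hI
  obtain ⟨eL⟩ : Nonempty (Fin s ↪ I) :=
    Function.Embedding.nonempty_of_card_le (by
      rw [Fintype.card_fin, Fintype.card_coe]
      exact hsb.trans hI)
  obtain ⟨eR⟩ : Nonempty (Fin b ↪ I) :=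
    Function.Embedding.nonempty_of_card_le (by
      rw [Fintype.card_fin, Fintype.card_coe]
      exact hI)
  let red : (Fin m → ℕ) → (Fin s → Fin q) := fun x t => Fin.ofNat q (x (eL t))
  let B : (Fin m → ℕ) → Finset (Fin s → Fin q) :=
    fun y => univ.filter (fun u => ∀ k, ((g k u : Fin q) : ℕ) ≠ y (eR k))
  have hBcard : ∀ y : Fin m → ℕ, (∀ i ∈ I, y i < q) → (B y).card < s := by
    intro y hy
    by_contra hc
    rw [not_lt] at hc
    obtain ⟨A, hA, hAs⟩ := Finset.exists_subset_card_eq hc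
    obtain ⟨k, hk⟩ := hg A hAs
    obtain ⟨u, hu, huv⟩ := hk ⟨y (eR k), hy _ (eR k).2⟩
    have h1 := hA hu
    have h2 := (Finset.mem_filter.1 h1).2 k
    apply h2
    rw [huv]
  have hn : ∀ y : Fin m → ℕ, (∀ i ∈ I, y i < q) →
      ∃ n : (Fin s → Fin q) → Fin s, ∀ u ∈ B y, ∀ u' ∈ B y, n u = n u' → u = u' := by
    intro y hy
    obtain ⟨f⟩ : Nonempty ((B y : Finset (Fin s → Fin q)) ↪ Fin s) :=
      Function.Embedding.nonempty_of_card_le (by
        rw [Fintype.card_fin, Fintype.card_coe]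
        exact (hBcard y hy).le)
    refine ⟨fun u => if h : u ∈ B y then f ⟨u, h⟩ else 0, ?_⟩
    intro u hu u' hu' h
    simp only [hu, hu', dif_pos] at h
    have := f.injective h
    exact congrArg Subtype.val this
  let nn : (Fin m → ℕ) → (Fin s → Fin q) → Fin s := fun y =>
    if h : ∃ n : (Fin s → Fin q) → Fin s, ∀ u ∈ B y, ∀ u' ∈ B y, n u = n u' → u = u'
    then h.choose else fun _ => 0
  have hnn : ∀ y : Fin m → ℕ, (∀ i ∈ I, y i < q) →
      ∀ u ∈ B y, ∀ u' ∈ B y, nn y u = nn y u' → u = u' := by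
    intro y hy
    have h := hn y hy
    have h1 : nn y = h.choose := dif_pos h
    rw [h1]
    exact h.choose_spec
  refine ⟨fun y i => if h : ∃ u ∈ B y, (eL (nn y u) : Fin m) = i
    then ((h.choose (nn y h.choose) : Fin q) : ℕ) else 0,
    fun x i => if h : ∃ k, (eR k : Fin m) = i then ((g h.choose (red x) : Fin q) : ℕ) else 0, ?_⟩
  intro x y hxy
  by_contra hcon
  push Not at hcon
  have hu : red x ∈ B y := by
    refine Finset.mem_filter.2 ⟨Finset.mem_univ _, fun k hk => ?_⟩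
    apply (hcon _ (eR k).2).2
    have hex : ∃ k', (eR k' : Fin m) = eR k := ⟨k, rfl⟩
    rw [dif_pos hex]
    have h1 : hex.choose = k := eR.injective (Subtype.ext hex.choose_spec)
    rw [h1]
    exact hk.symm
  apply (hcon _ (eL (nn y (red x))).2).1
  have hex : ∃ u ∈ B y, (eL (nn y u) : Fin m) = eL (nn y (red x)) := ⟨_, hu, rfl⟩
  rw [dif_pos hex]
  have h1 : hex.choose = red x :=
    hnn y (fun i hi => (hxy i hi).2) _ hex.choose_spec.1 _ hu
      (eL.injective (Subtype.ext hex.choose_spec.2))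
  rw [h1]
  have h2 : ((red x (nn y (red x)) : Fin q) : ℕ) = x (eL (nn y (red x))) % q := rfl
  rw [h2, Nat.mod_eq_of_lt (hxy _ (eL (nn y (red x))).2).1]

end Pool.Agent.TriSup
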