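import Pool.Agent.TriSup.Defs2
import Pool.Agent.TriSup.Family
import Pool.Agent.TriSup.Facts

/-!
# Adaptive hat guessing against spread hats
-/

namespace Pool.Agent.TriSup

open Finset

private abbrev Dt (m N T : ℕ) : Type := Fin (T * T) → Fin m × Fin N

private def ag {m N T : ℕ} (k : ℕ) (t t' : Dt m N T) : Prop :=
  ∀ j : Fin (T * T), j.1 < k * T → t' j = t j

open Classical in
private noncomputable def Lk {m N T : ℕ} (L : Finset (Dt m N T)) (k : ℕ) (t : Dt m N T) :
    Finset (Dt m N T) := L.filter fun t' => ag k t t'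

private def blk {m N T : ℕ} (d : Fin m × Fin N) (k : ℕ) (t : Dt m N T) (r : Fin T) :
    Fin m × Fin N := if h : k * T + r.1 < T * T then t ⟨k * T + r.1, h⟩ else d

private theorem idx_lt {T k : ℕ} (hk : k < T) (r : Fin T) : k * T + r.1 < T * T := by
  have h1 : (k + 1) * T ≤ T * T := Nat.mul_le_mul_right _ hk
  have h2 := r.2
  rw [Nat.succ_mul] at h1
  omega

private theorem Lk_congr {m N T : ℕ} (L : Finset (Dt m N T)) {k : ℕ} {t t' : Dt m N T}
    (h : ag k t t') : Lk L k t = Lk L k t' := by
  classical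
  unfold Lk
  refine filter_congr fun s _ => ?_
  constructor
  · intro h1 j hj
    rw [h1 j hj, h j hj]
  · intro h1 j hj
    rw [h1 j hj, h j hj]

private theorem ag_succ {m N T : ℕ} {k : ℕ} {t t' : Dt m N T} (h : ag (k + 1) t t') : ag k t t' :=
  fun j hj => h j (lt_of_lt_of_le hj (Nat.mul_le_mul_right _ (Nat.le_succ k)))

private theorem exists_md {m N T : ℕ} (d : Fin m × Fin N) (L : Finset (Dt m N T)) (k : ℕ) :
    ∃ o : Option (Fin T → Fin m × Fin N), (L = ∅ → o = none) ∧
      (L.Nonempty → ∃ c, o = some c ∧ (∃ t ∈ L, blk d k t = c) ∧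
        ∀ c', (L.filter fun t => blk d k t = c').card ≤ (L.filter fun t => blk d k t = c).card) := by
  classical
  rcases L.eq_empty_or_nonempty with h | h
  · exact ⟨none, fun _ => rfl, fun h' => absurd h h'.ne_empty⟩
  · obtain ⟨c, hc, hmax⟩ := exists_max_image (L.image (blk d k))
      (fun c => (L.filter fun t => blk d k t = c).card) (h.image _)
    refine ⟨some c, fun h' => absurd h' h.ne_empty, fun _ => ⟨c, rfl, mem_image.1 hc, fun c' => ?_⟩⟩
    by_cases hc' : c' ∈ L.image (blk d k)
    · exact hmax c' hc'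
    · have h1 : L.filter (fun t => blk d k t = c') = ∅ := by
        rw [filter_eq_empty_iff]
        intro t ht h2
        exact hc' (mem_image.2 ⟨t, ht, h2⟩)
      rw [h1, card_empty]
      exact Nat.zero_le _

private theorem exists_pk {m N T : ℕ} (o : Option (Fin T → Fin m × Fin N)) (B : Finset (Fin m)) :
    ∃ f : Option (Fin m × Fin N), (o = none → f = none) ∧
      ∀ c, o = some c → (∃ r, (c r).1 ∉ B ∧ f = some (c r)) ∨ (f = none ∧ ∀ r, (c r).1 ∈ B) := by
  cases o with
  | none => exact ⟨none, fun _ => rfl, fun c hc => by simp at hc⟩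
  | some c =>
    by_cases h : ∃ r, (c r).1 ∉ B
    · obtain ⟨r, hr⟩ := h
      refine ⟨some (c r), fun h' => by simp at h', fun c' hc' => Or.inl ⟨r, ?_⟩⟩
      obtain rfl : c = c' := by simpa using hc'
      exact ⟨hr, rfl⟩
    · push Not at h
      refine ⟨none, fun _ => rfl, fun c' hc' => Or.inr ⟨rfl, ?_⟩⟩
      obtain rfl : c = c' := by simpa using hc'
      exact h

private theorem strat {m N T : ℕ} (d : Fin m × Fin N) (L : Finset (Dt m N T))
    (hinj : ∀ t ∈ L, Function.Injective fun j => (t j).1) :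
    ∃ bet : Dt m N T → ℕ → Option (Fin m × Fin N),
      (∀ t t' k, ag k t t' → bet t' k = bet t k) ∧
      (∀ t k k' f f', k ≠ k' → bet t k = some f → bet t k' = some f' → f.1 ≠ f'.1) ∧
      (∀ t k f, k < T → bet t k = some f →
        ∃ t' ∈ L, ag k t t' ∧ ∃ j : Fin (T * T), k * T ≤ j.1 ∧ t' j = f) ∧
      (∀ t ∈ L, (∀ k < T, ∀ f, bet t k = some f → ¬ ∃ j, t j = f) → 2 ^ T ≤ L.card) := by
  classical
  choose md hmd0 hmd using fun (L : Finset (Dt m N T)) (k : ℕ) => exists_md d L k
  choose pk hpk0 hpk using fun (o : Option (Fin T → Fin m × Fin N)) (B : Finset (Fin m)) =>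
    exists_pk o B
  obtain ⟨burnt, hb0, hbs⟩ : ∃ burnt : Dt m N T → ℕ → Finset (Fin m), (∀ t, burnt t 0 = ∅) ∧
      ∀ t k, burnt t (k + 1) = (pk (md (Lk L k t) k) (burnt t k)).elim (burnt t k)
        (fun f => insert f.1 (burnt t k)) :=
    ⟨fun t k => Nat.rec (motive := fun _ => Finset (Fin m)) ∅
      (fun k B => (pk (md (Lk L k t) k) B).elim B (fun f => insert f.1 B)) k,
      fun _ => rfl, fun _ _ => rfl⟩
  have hbmono : ∀ t k, burnt t k ⊆ burnt t (k + 1) := by
    intro t k
    rw [hbs]
    cases pk (md (Lk L k t) k) (burnt t k) with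
    | none => exact subset_rfl
    | some f => exact subset_insert _ _
  have hbmono' : ∀ t k l, k ≤ l → burnt t k ⊆ burnt t l := by
    intro t k l hkl
    induction hkl with
    | refl => exact subset_rfl
    | step _ ih => exact ih.trans (hbmono t _)
  have hbcard : ∀ t k, (burnt t k).card ≤ k := by
    intro t k
    induction k with
    | zero => rw [hb0, card_empty]
    | succ k ih =>
      rw [hbs]
      cases pk (md (Lk L k t) k) (burnt t k) with
      | none => exact ih.trans (Nat.le_succ k)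
      | some f => exact (card_insert_le _ _).trans (Nat.succ_le_succ ih)
  have hbin : ∀ t k f, pk (md (Lk L k t) k) (burnt t k) = some f → f.1 ∈ burnt t (k + 1) := by
    intro t k f hf
    rw [hbs, hf]
    exact mem_insert_self _ _
  have hbcongr : ∀ t t' k, ag k t t' → burnt t' k = burnt t k := by
    intro t t' k
    induction k with
    | zero => intro _; rw [hb0, hb0]
    | succ k ih =>
      intro h
      have h1 := ag_succ h
      rw [hbs, hbs, ih h1, Lk_congr L h1]
  have hsome : ∀ t k f, pk (md (Lk L k t) k) (burnt t k) = some f →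
      ∃ c, md (Lk L k t) k = some c ∧ (∃ t' ∈ Lk L k t, blk d k t' = c) ∧
        ∃ r, (c r).1 ∉ burnt t k ∧ f = c r := by
    intro t k f hf
    rcases (Lk L k t).eq_empty_or_nonempty with h | h
    · rw [hpk0 _ _ (hmd0 _ _ h)] at hf
      exact absurd hf (by simp)
    · obtain ⟨c, hc, hc1, -⟩ := hmd _ k h
      rcases hpk _ (burnt t k) c hc with ⟨r, hr, hr'⟩ | ⟨h1, -⟩
      · rw [hr'] at hf
        exact ⟨c, hc, hc1, r, hr, (Option.some.inj hf).symm⟩
      · rw [h1] at hf
        exact absurd hf (by simp)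
  refine ⟨fun t k => pk (md (Lk L k t) k) (burnt t k), ?_, ?_, ?_, ?_⟩
  · intro t t' k h
    beta_reduce
    rw [hbcongr t t' k h, Lk_congr L h]
  · intro t k k' f f' hne hf hf' heq
    beta_reduce at hf hf'
    rcases lt_or_gt_of_ne hne with h | h
    · obtain ⟨c, -, -, r, hr, rfl⟩ := hsome t k' f' hf'
      exact hr (heq ▸ hbmono' t (k + 1) k' h (hbin t k f hf))
    · obtain ⟨c, -, -, r, hr, rfl⟩ := hsome t k f hf
      exact hr (heq ▸ hbmono' t (k' + 1) k h (hbin t k' f' hf'))
  · intro t k f hk hf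
    obtain ⟨c, -, ⟨t', ht', rfl⟩, r, -, rfl⟩ := hsome t k f hf
    unfold Lk at ht'
    rw [mem_filter] at ht'
    refine ⟨t', ht'.1, ht'.2, ⟨k * T + r.1, idx_lt hk r⟩, Nat.le_add_right _ _, ?_⟩
    unfold blk
    rw [dif_pos (idx_lt hk r)]
  · intro t ht hno
    have key : ∀ k ≤ T, 2 ^ k * (Lk L k t).card ≤ L.card := by
      intro k
      induction k with
      | zero =>
        intro _
        rw [pow_zero, one_mul]
        exact card_le_card (filter_subset _ _)
      | succ k ih =>
        intro hk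
        have hk' : k < T := hk
        have htk : t ∈ Lk L k t := mem_filter.2 ⟨ht, fun _ _ => rfl⟩
        obtain ⟨c, hc, ⟨t0, ht0, hblk⟩, hmax⟩ := hmd (Lk L k t) k ⟨t, htk⟩
        have hne : c ≠ blk d k t := by
          rcases hpk _ (burnt t k) c hc with ⟨r, hr, hr'⟩ | ⟨-, hall⟩
          · intro heq
            refine hno k hk' (c r) hr' ⟨⟨k * T + r.1, idx_lt hk' r⟩, ?_⟩
            rw [heq]
            unfold blk
            rw [dif_pos (idx_lt hk' r)]
          · exfalso
            have h1 : Function.Injective fun r => (c r).1 := by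
              intro r r' hrr
              rw [← hblk] at hrr
              unfold blk at hrr
              simp only [dif_pos (idx_lt hk' r), dif_pos (idx_lt hk' r')] at hrr
              have h2 := hinj t0 (mem_filter.1 ht0).1 hrr
              have h3 := congrArg Fin.val h2
              simp only at h3
              exact Fin.ext (by omega)
            have h2 : (univ.image fun r => (c r).1).card = T := by
              rw [card_image_of_injective _ h1, card_univ, Fintype.card_fin]
            have h3 : (univ.image fun r => (c r).1) ⊆ burnt t k := by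
              intro i hi
              obtain ⟨r, -, rfl⟩ := mem_image.1 hi
              exact hall r
            have h4 := card_le_card h3
            have h5 := hbcard t k
            omega
        have hsub : Lk L (k + 1) t ⊆ (Lk L k t).filter fun t' => blk d k t' = blk d k t := by
          intro t' ht'
          unfold Lk at ht'
          rw [mem_filter] at ht'
          refine mem_filter.2 ⟨mem_filter.2 ⟨ht'.1, ag_succ ht'.2⟩, ?_⟩
          funext r
          unfold blk
          rw [dif_pos (idx_lt hk' r), dif_pos (idx_lt hk' r)]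
          refine ht'.2 _ ?_
          have := r.2
          rw [Nat.succ_mul]
          simp only
          omega
        have h1 := card_le_card hsub
        have h2 := hmax (blk d k t)
        have h3 : Disjoint ((Lk L k t).filter fun t' => blk d k t' = c)
            ((Lk L k t).filter fun t' => blk d k t' = blk d k t) := by
          rw [disjoint_left]
          intro t' h4 h5
          exact hne ((mem_filter.1 h4).2.symm.trans (mem_filter.1 h5).2)
        have h4 : ((Lk L k t).filter fun t' => blk d k t' = c).card +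
            ((Lk L k t).filter fun t' => blk d k t' = blk d k t).card ≤ (Lk L k t).card := by
          rw [← card_union_of_disjoint h3]
          exact card_le_card (union_subset (filter_subset _ _) (filter_subset _ _))
        have h5 := ih hk'.le
        calc 2 ^ (k + 1) * (Lk L (k + 1) t).card = 2 ^ k * (2 * (Lk L (k + 1) t).card) := by
              rw [pow_succ, mul_assoc]
          _ ≤ 2 ^ k * (Lk L k t).card := Nat.mul_le_mul_left _ (by omega)
          _ ≤ L.card := h5
    have h1 := key T le_rfl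
    have h2 : t ∈ Lk L T t := mem_filter.2 ⟨ht, fun _ _ => rfl⟩
    have h3 : 1 ≤ (Lk L T t).card := card_pos.2 ⟨t, h2⟩
    calc 2 ^ T = 2 ^ T * 1 := (mul_one _).symm
      _ ≤ 2 ^ T * (Lk L T t).card := Nat.mul_le_mul_left _ h3
      _ ≤ L.card := h1

/-- Adaptive hat guessing with `N` hat colours: `b` right players are enough when the left hats
take at least `T * T` different values. -/
theorem wins2_of_le (N T b m : ℕ) (hN : 1 ≤ N) (hT : N * (Nat.clog 2 N + 1) ≤ 2 ^ T)
    (hb : ((m * N) ^ (T * T)) ^ (N * (Nat.clog 2 N + 1)) < 2 ^ b)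
    (I : Finset (Fin m)) (hI : b ≤ I.card) :
    Wins2 I (fun x => (∀ i ∈ I, x i < N) ∧ T * T ≤ (I.image x).card)
      (fun y => ∀ i ∈ I, y i < N) := by
  classical
  rcases Nat.eq_zero_or_pos m with rfl | hm
  · refine ⟨fun _ _ _ => False, fun _ _ _ => False, fun _ _ _ i => i.elim0, fun _ _ _ i => i.elim0,
      fun x y hx _ => ?_⟩
    exfalso
    have hI0 : I = ∅ := Subsingleton.elim _ _
    subst hI0
    have h1 := hx.2
    rw [image_empty, card_empty] at h1
    have h2 : T * T = 0 := Nat.le_zero.1 h1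
    have h3 : b = 0 := Nat.le_zero.1 hI
    rw [h2, h3, pow_zero, one_pow, pow_zero] at hb
    exact lt_irrefl _ hb
  obtain ⟨θ, hθ1, hθ2, hθ3⟩ := exists_facts hm I
  have d : Fin m × Fin N := (⟨0, hm⟩, ⟨0, hN⟩)
  obtain ⟨g, hg⟩ := exists_family (D := Dt m N T) N hN b (by
    rw [Fintype.card_fun, Fintype.card_prod, Fintype.card_fin, Fintype.card_fin, Fintype.card_fin]
    exact hb)
  obtain ⟨e, he, heI⟩ : ∃ e : Fin b → Fin m, Function.Injective e ∧ ∀ k, e k ∈ I :=
    ⟨I.orderEmbOfCardLe hI, (I.orderEmbOfCardLe hI).injective, fun k => orderEmbOfCardLe_mem I hI k⟩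
  set HL : (Fin m → ℕ) → Prop := fun x => (∀ i ∈ I, x i < N) ∧ T * T ≤ (I.image x).card with hHL
  obtain ⟨th, hth⟩ : ∃ th : (Fin m → ℕ) → Dt m N T, ∀ x k, (th x k).1 = (θ x k).1 ∧
      ((θ x k).2 < N → ((th x k).2 : ℕ) = (θ x k).2) := by
    refine ⟨fun x k => ((θ x k).1, if h : (θ x k).2 < N then ⟨_, h⟩ else ⟨0, hN⟩), fun x k =>
      ⟨rfl, fun h => ?_⟩⟩
    simp only [dif_pos h]
  have hval : ∀ x, HL x → ∀ k : Fin (T * T), (th x k).1 ∈ I ∧ x (th x k).1 = (th x k).2 ∧
      ((th x k).2 : ℕ) = (θ x k).2 ∧ k.1 < (I.image x).card := by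
    intro x hx k
    have hk : k.1 < (I.image x).card := lt_of_lt_of_le k.2 hx.2
    obtain ⟨h1, h2⟩ := hθ1 x k hk
    have h3 : (θ x k).2 < N := by
      rw [← h2]
      exact hx.1 _ h1
    have h4 := (hth x k).2 h3
    rw [(hth x k).1, h4]
    exact ⟨h1, h2, rfl, hk⟩
  set Ly : (Fin m → ℕ) → Finset (Dt m N T) := fun y =>
    univ.filter fun t => (∃ x, HL x ∧ th x = t) ∧ ∀ k : Fin b, (g k t : ℕ) ≠ y (e k) with hLy
  have hinj : ∀ y, ∀ t ∈ Ly y, Function.Injective fun j => (t j).1 := by
    intro y t ht j j' hjj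
    obtain ⟨-, ⟨x, hx, rfl⟩, -⟩ := mem_filter.1 ht
    simp only at hjj
    obtain ⟨-, h2, h3, h4⟩ := hval x hx j
    obtain ⟨-, h2', h3', h4'⟩ := hval x hx j'
    rw [hjj] at h2
    have h5 : (θ x j).2 = (θ x j').2 := by rw [← h3, ← h3', ← h2, ← h2']
    rcases lt_trichotomy j.1 j'.1 with h | h | h
    · have := hθ2 x j j' h h4'
      omega
    · exact Fin.ext h
    · have := hθ2 x j' j h h4
      omega
  choose bet hb1 hb2 hb3 hb4 using fun y => strat d (Ly y) (hinj y)
  have key : ∀ x x' y, ∀ i, HL x → HL x' →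
      (∃ k < T, ∃ f, bet y (th x) k = some f ∧ f.1 = i ∧ x i = (f.2 : ℕ)) →
      (∃ k < T, ∃ f, bet y (th x') k = some f ∧ f.1 = i ∧ x' i = (f.2 : ℕ)) →
      x' i < x i → Agree I (x i) x x' → False := by
    rintro x x' y i hx hx' ⟨k, hk, f, hf, hfi, hfx⟩ ⟨k', hk', f', hf', hfi', hfx'⟩ hlt hag
    obtain ⟨t', ht', hagt, j, hj, htj⟩ := hb3 y (th x) k f hk hf
    obtain ⟨-, ⟨x2, hx2, rfl⟩, -⟩ := mem_filter.1 ht'
    have hagx : ag k (th x) (th x') := by
      intro j0 hj0
      obtain ⟨-, -, h3, h4⟩ := hval x hx j0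
      obtain ⟨-, -, h3', h4'⟩ := hval x' hx' j0
      obtain ⟨-, -, h3'', h4''⟩ := hval x2 hx2 j0
      obtain ⟨-, -, h5, h6⟩ := hval x2 hx2 j
      have h7 := hθ2 x2 j0 j (lt_of_lt_of_le hj0 hj) h6
      have h8 := congrArg (fun z => ((Prod.snd z : Fin N) : ℕ)) (hagt j0 hj0)
      have h9 : x i < (θ x j0).2 := by
        rw [hfx, ← htj, h5, ← h3, ← h8, h3'']
        exact h7
      have h10 := hθ3 x x' j0 (x i) h4 h4' hag h9
      refine Prod.ext ?_ (Fin.ext ?_)
      · rw [(hth x' j0).1, (hth x j0).1, h10]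
      · rw [h3', h3, h10]
    have h1 := hb1 y (th x) (th x') k hagx
    rw [hf] at h1
    by_cases hkk : k = k'
    · subst hkk
      rw [hf'] at h1
      have h2 := Option.some.inj h1
      rw [h2] at hfx'
      omega
    · exact hb2 y (th x') k k' f f' hkk h1 hf' (hfi.trans hfi'.symm)
  refine ⟨fun x y i => ∃ k < T, ∃ f, bet y (th x) k = some f ∧ f.1 = i ∧ x i = (f.2 : ℕ),
    fun x y i => ∃ k : Fin b, e k = i ∧ y i = (g k (th x) : ℕ), ?_, ?_, ?_⟩
  · intro x x' y i hi hx hx' hy h1 h2 hag
    rcases lt_trichotomy (x i) (x' i) with h | h | h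
    · exfalso
      rw [max_eq_right h.le] at hag
      exact key x' x y i hx' hx h2 h1 h (fun k hk v hv => (hag k hk v hv).symm)
    · exact h
    · exfalso
      rw [max_eq_left h.le] at hag
      exact key x x' y i hx hx' h1 h2 h hag
  · rintro x y y' i hi ⟨k, hk, h1⟩ ⟨k', hk', h2⟩
    have h3 : k = k' := he (hk.trans hk'.symm)
    subst h3
    rw [h1, h2]
  · intro x y hx hy
    by_contra hcon
    push Not at hcon
    have hmem : th x ∈ Ly y := by
      refine mem_filter.2 ⟨mem_univ _, ⟨x, hx, rfl⟩, fun k hk => ?_⟩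
      exact (hcon (e k) (heI k)).2 k rfl hk.symm
    have h1 : 2 ^ T ≤ (Ly y).card := by
      refine hb4 y (th x) hmem fun k hk f hf => ?_
      rintro ⟨j, hj⟩
      obtain ⟨h2, h3, -, -⟩ := hval x hx j
      rw [hj] at h2 h3
      exact (hcon f.1 h2).1 k hk f hf rfl h3
    have h2 : (Ly y).card < N * (Nat.clog 2 N + 1) := by
      by_contra hge
      push Not at hge
      obtain ⟨A, hA, hAc⟩ := exists_subset_card_eq hge
      obtain ⟨k, hk⟩ := hg A hAc
      obtain ⟨t, ht, hgt⟩ := hk ⟨y (e k), hy (e k) (heI k)⟩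
      exact (mem_filter.1 (hA ht)).2.2 k (by rw [hgt])
    omega

end Pool.Agent.TriSup
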