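import Pool.Agent.TriSup.Core
import Pool.Agent.TriSup.Hats
import Pool.Agent.TriSup.Code
import Pool.Agent.TriGrow.Ramsey

/-!
# The lower bound
-/

namespace Pool.Agent.TriSup

open Finset Pool.Agent.TriGrow

/-- A system gives a lower bound for `r(3; w m)`. -/
lemma Sys.card_lt {m w : ℕ} {X : Type} [Fintype X] (S : Sys m w X) (h : 0 < w * m) :
    Fintype.card X < r3 (w * m) := by
  refine lt_r3 (fun x y => (S.col x y).2 * m + (S.col x y).1) ?_ ?_ ?_ h
  · intro x y hxy
    have h1 := S.lt x y hxy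
    have h2 := (S.col x y).1.2
    nlinarith
  · intro x y hxy
    simp only [S.symm x y hxy]
  · intro x y z h1 h2 h3 h4
    have key : ∀ c d : Fin m × ℕ, c.2 * m + (c.1 : ℕ) = d.2 * m + (d.1 : ℕ) → c = d := by
      rintro ⟨⟨c1, hc⟩, c2⟩ ⟨⟨d1, hd⟩, d2⟩ h
      simp only at h
      have hm : 0 < m := by omega
      have e1 : (c1 + c2 * m) % m = (d1 + d2 * m) % m := by rw [add_comm, h, add_comm]
      have e2 : (c1 + c2 * m) / m = (d1 + d2 * m) / m := by rw [add_comm, h, add_comm]
      rw [Nat.add_mul_mod_self_right, Nat.add_mul_mod_self_right, Nat.mod_eq_of_lt hc,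
        Nat.mod_eq_of_lt hd] at e1
      rw [Nat.add_mul_div_right _ _ hm, Nat.add_mul_div_right _ _ hm, Nat.div_eq_of_lt hc,
        Nat.div_eq_of_lt hd, zero_add, zero_add] at e2
      subst e1 e2
      rfl
    exact S.tri x y z h1 h2 h3 ⟨key _ _ h4.1, key _ _ h4.2⟩

/-- The lower bound for codes of minimum distance `l`, when `l` players on each side win with `w`
hat colours. -/
theorem lower (m w l : ℕ) (hm : 1 ≤ m) (hw1 : 1 ≤ w)
    (hw : ∀ I : Finset (Fin m), l ≤ I.card → Wins m w I) :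
    w.factorial ^ m < r3 (w * m) * (m * w) ^ (w * l) := by
  have hc : ∀ k : ℕ, ∃ Z : Finset (Fin m → ℕ), IsCode m (k + 1) l Z ∧
      (k + 1) ^ m ≤ Z.card * (m * (k + 1)) ^ l := fun k => exists_code m (k + 1) l hm (by omega)
  choose Z hZ1 hZ2 using hc
  obtain ⟨X, _, hX, ⟨S⟩⟩ := exists_sys m w l hm hw Z (fun k _ => hZ1 k) w le_rfl
  have h1 := S.card_lt (by positivity)
  rw [hX] at h1
  have h2 : w.factorial ^ m ≤ (∏ k ∈ range w, (Z k).card) * (m * w) ^ (w * l) := by
    rw [← prod_range_add_one_eq_factorial, ← prod_pow]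
    calc ∏ k ∈ range w, (k + 1) ^ m ≤ ∏ k ∈ range w, ((Z k).card * (m * w) ^ l) := by
          refine prod_le_prod' fun k hk => (hZ2 k).trans ?_
          refine Nat.mul_le_mul_left _ (Nat.pow_le_pow_left (Nat.mul_le_mul_left _ ?_) _)
          have := mem_range.1 hk
          omega
      _ = (∏ k ∈ range w, (Z k).card) * (m * w) ^ (w * l) := by
          rw [prod_mul_distrib, prod_const, card_range, ← pow_mul, mul_comm l w]
  refine h2.trans_lt (Nat.mul_lt_mul_of_pos_right h1 (by positivity))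

/-- The lower bound. -/
theorem lower_ell (m w : ℕ) (hm : 1 ≤ m) (hw1 : 1 ≤ w) :
    w.factorial ^ m < r3 (w * m) * (w * m) ^ (w * ell w) := by
  have := lower m w (ell w) hm hw1 (fun I hI => wins_of_le w hw1 m I hI)
  rwa [show (m * w) ^ (w * ell w) = (w * m) ^ (w * ell w) by rw [mul_comm m w]] at this

end Pool.Agent.TriSup
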