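import Pool.Agent.TriSup.Core2
import Pool.Agent.TriSup.Hats2
import Pool.Agent.TriSup.Code2
import Pool.Agent.TriSup.Design
import Pool.Agent.TriGrow.Ramsey

/-!
# The lower bound, adaptive version
-/

namespace Pool.Agent.TriSup

open Finset Pool.Agent.TriGrow

/-- A system gives a lower bound for `r(3; w m)`. -/
lemma Sys2.card_lt {m w N : ℕ} {M : ℕ → Finset (Fin m)} {ρ : Fin m → ℕ} {X : Type} [Fintype X]
    (S : Sys2 m M N ρ X) (hρ : ∀ i, ρ i ≤ w) (h : 0 < w * m) :
    Fintype.card X < r3 (w * m) := by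
  refine lt_r3 (fun x y => (S.col x y).2 * m + (S.col x y).1) ?_ ?_ ?_ h
  · intro x y hxy
    have h1 := (S.lt x y hxy).trans_le (hρ _)
    have h2 := (S.col x y).1.2
    nlinarith
  · intro x y hxy
    simp only [S.symm x y hxy]
  · intro x y z h1 h2 h3 h4
    have key : ∀ c d : Fin m × ℕ, c.2 * m + (c.1 : ℕ) = d.2 * m + (d.1 : ℕ) → c = d := by
      rintro ⟨⟨c1, hc⟩, c2⟩ ⟨⟨d1, hd⟩, d2⟩ h
      simp only at h
      have hm : 0 < m := by omega
      have e1 : (c1 + c2 * m) % m = (d1 + d2 * m) % m := by rw [add_comm, h, add_comm]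
      have e2 : (c1 + c2 * m) / m = (d1 + d2 * m) / m := by rw [add_comm, h, add_comm]
      rw [Nat.add_mul_mod_self_right, Nat.add_mul_mod_self_right, Nat.mod_eq_of_lt hc,
        Nat.mod_eq_of_lt hd] at e1
      rw [Nat.add_mul_div_right _ _ hm, Nat.add_mul_div_right _ _ hm, Nat.div_eq_of_lt hc,
        Nat.div_eq_of_lt hd, zero_add, zero_add] at e2
      subst e1 e2
      rfl
    exact S.tri x y z h1 h2 h3 ⟨key _ _ h4.1, key _ _ h4.2⟩

lemma acts_succ_of_mem {m : ℕ} {M : ℕ → Finset (Fin m)} {v : ℕ} {i : Fin m} (hi : i ∈ M v) :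
    acts M (v + 1) i = acts M v i + 1 := by
  unfold acts
  rw [range_add_one, filter_insert, if_pos hi, card_insert_of_notMem (by simp)]

lemma acts_succ_of_notMem {m : ℕ} {M : ℕ → Finset (Fin m)} {v : ℕ} {i : Fin m} (hi : i ∉ M v) :
    acts M (v + 1) i = acts M v i := by
  unfold acts
  rw [range_add_one, filter_insert, if_neg hi]

lemma acts_mono {m : ℕ} {M : ℕ → Finset (Fin m)} {v v' : ℕ} (h : v ≤ v') (i : Fin m) :
    acts M v i ≤ acts M v' i := by
  unfold acts
  exact card_le_card (filter_subset_filter _ (range_mono h))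

/-- The product of all alphabet sizes. -/
lemma prod_acts {m : ℕ} (M : ℕ → Finset (Fin m)) (N : ℕ) :
    ∏ t ∈ range N, ∏ i ∈ M t, (acts M t i + 1) = ∏ i, (acts M N i).factorial := by
  induction N with
  | zero => simp [acts]
  | succ N ih =>
    rw [prod_range_succ, ih]
    have h1 : ∏ i ∈ M N, (acts M N i + 1) = ∏ i, (if i ∈ M N then acts M N i + 1 else 1) := by
      rw [prod_ite_mem, univ_inter]
    rw [h1, ← prod_mul_distrib]
    refine prod_congr rfl fun i _ => ?_
    by_cases hi : i ∈ M N
    · rw [if_pos hi, acts_succ_of_mem hi, Nat.factorial_succ, mul_comm]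
    · rw [if_neg hi, acts_succ_of_notMem hi, mul_one]

/-- The lower bound, general form. -/
theorem lower2_gen (m N w l : ℕ) (hm : 1 ≤ m) (hw1 : 1 ≤ w) (M : ℕ → Finset (Fin m))
    (hM : ∀ i, acts M N i = w)
    (hw : ∀ t < N, ∀ I ⊆ M t, l ≤ I.card → Wins2 I (fun x => ∀ i ∈ I, x i < t ∧ i ∈ M (x i))
      (fun y => ∀ i ∈ I, y i < t)) :
    w.factorial ^ m < r3 (w * m) * (w * m) ^ (N * l) := by
  have hc : ∀ t : ℕ, ∃ Z : Finset (Fin m → ℕ), t < N → IsCode2 (M t) (acts M t) l Z ∧
      ∏ i ∈ M t, (acts M t i + 1) ≤ Z.card * (m * w) ^ l := by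
    intro t
    by_cases ht : t < N
    · obtain ⟨Z, h⟩ := exists_code2 (M t) (acts M t) w l hm (fun i hi => by
        have h1 := acts_succ_of_mem hi
        have h2 := acts_mono (M := M) (show t + 1 ≤ N by omega) i
        have h3 := hM i
        omega) hw1
      exact ⟨Z, fun _ => h⟩
    · exact ⟨∅, fun h => absurd h ht⟩
  choose Z hZ using hc
  obtain ⟨X, _, hX, ⟨S⟩⟩ := exists_sys2 m hm M N l hw Z (fun t ht => (hZ t ht).1) N le_rfl
  have h1 := S.card_lt (w := w) (fun i => (hM i).le) (by positivity)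
  rw [hX] at h1
  have h2 : w.factorial ^ m ≤ (∏ t ∈ range N, (Z t).card) * (w * m) ^ (N * l) := by
    have h3 : w.factorial ^ m = ∏ t ∈ range N, ∏ i ∈ M t, (acts M t i + 1) := by
      rw [prod_acts]
      simp [hM]
    rw [h3]
    calc ∏ t ∈ range N, ∏ i ∈ M t, (acts M t i + 1)
        ≤ ∏ t ∈ range N, ((Z t).card * (m * w) ^ l) :=
          prod_le_prod' fun t ht => (hZ t (mem_range.1 ht)).2
      _ = (∏ t ∈ range N, (Z t).card) * (w * m) ^ (N * l) := by
          rw [prod_mul_distrib, prod_const, card_range, ← pow_mul, mul_comm l N, mul_comm m w]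
  exact h2.trans_lt (Nat.mul_lt_mul_of_pos_right h1 (by positivity))

/-- The lower bound from a design. -/
theorem lower2_aux (G R N m T b lam : ℕ) (hG0 : 0 < G) (hR : 1 ≤ R) (hN : N = R * G)
    (hm : 1 ≤ m) (hlam0 : 1 ≤ lam) (f : Fin m → ℕ → ℕ) (hf : ∀ i b, f i b < G)
    (hf2 : ∀ b b', b < R → b' < R → b ≠ b' → ∀ g g',
      (univ.filter fun i => f i b = g ∧ f i b' = g').card ≤ lam)
    (hT : N * (Nat.clog 2 N + 1) ≤ 2 ^ T)
    (hb : ((m * N) ^ (T * T)) ^ (N * (Nat.clog 2 N + 1)) < 2 ^ b) :
    R.factorial ^ m < r3 (R * m) * (R * m) ^ (N * (b + T * T * lam)) := by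
  let M : ℕ → Finset (Fin m) := fun t => univ.filter fun i => f i (t / G) = t % G
  have hmem : ∀ t i, i ∈ M t ↔ f i (t / G) = t % G := by
    intro t i
    simp [M]
  have hN0 : 1 ≤ N := by rw [hN]; exact Nat.mul_pos hR hG0
  refine lower2_gen m N R (b + T * T * lam) hm hR M
    ?_ ?_
  · -- every part acts once in every round
    intro i
    unfold acts
    rw [hN]
    have : ((range (R * G)).filter fun t => i ∈ M t) =
        (range (R)).image (fun r => r * G + f i r) := by
      ext t
      simp only [mem_filter, mem_range, mem_image, hmem]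
      constructor
      · rintro ⟨h1, h2⟩
        refine ⟨t / G, Nat.div_lt_of_lt_mul (by rwa [mul_comm] at h1), ?_⟩
        rw [h2]
        exact Nat.div_add_mod' t G
      · rintro ⟨r, h1, rfl⟩
        have h2 := hf i r
        have h3 : (r * G + f i r) / G = r := by
          rw [Nat.add_comm, Nat.add_mul_div_right _ _ hG0, Nat.div_eq_of_lt h2, zero_add]
        have h4 : (r * G + f i r) % G = f i r := by
          rw [Nat.add_comm, Nat.add_mul_mod_self_right, Nat.mod_eq_of_lt h2]
        refine ⟨?_, by rw [h3, h4]⟩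
        calc r * G + f i r < r * G + G := by omega
          _ = (r + 1) * G := by ring
          _ ≤ R * G := Nat.mul_le_mul_right _ h1
    rw [this, card_image_of_injective, card_range]
    intro r r' h
    simp only at h
    have h2 := hf i r
    have h2' := hf i r'
    have h3 : (r * G + f i r) / G = r := by
      rw [Nat.add_comm, Nat.add_mul_div_right _ _ hG0, Nat.div_eq_of_lt h2, zero_add]
    have h3' : (r' * G + f i r') / G = r' := by
      rw [Nat.add_comm, Nat.add_mul_div_right _ _ hG0, Nat.div_eq_of_lt h2', zero_add]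
    rw [← h3, ← h3', h]
  · -- the strategies
    intro t ht I hI hl
    have hbI : b ≤ I.card := by omega
    refine (wins2_of_le N T b m hN0 hT hb I hbI).mono ?_ ?_
    · intro x hx
      refine ⟨fun i hi => (hx i hi).1.trans ht, ?_⟩
      -- the hats are spread
      have h1 : I.card ≤ ∑ u ∈ I.image x, (I.filter fun i => x i = u).card :=
        (card_eq_sum_card_image x I).le
      have h2 : ∀ u ∈ I.image x, (I.filter fun i => x i = u).card ≤ lam := by
        intro u hu
        obtain ⟨i0, hi0, rfl⟩ := mem_image.1 hu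
        set u := x i0 with hu'
        have hut : u < t := (hx i0 hi0).1
        by_cases hd : u / G = t / G
        · -- same round, different groups: no part in common
          have : (I.filter fun i => x i = u) = ∅ := by
            rw [filter_eq_empty_iff]
            intro i hi hxi
            have h3 := (hmem t i).1 (hI hi)
            have h4 := (hmem u i).1 (by rw [← hxi]; exact (hx i hi).2)
            rw [hd, h3] at h4
            have h5 := Nat.div_add_mod t G
            have h6 := Nat.div_add_mod u G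
            rw [hd, ← h4] at h6
            omega
          rw [this]
          simp
        · refine le_trans (card_le_card ?_) (hf2 (u / G) (t / G) ?_ ?_ hd (u % G) (t % G))
          · intro i hi
            rw [mem_filter] at hi
            rw [mem_filter]
            refine ⟨mem_univ _, (hmem u i).1 ?_, (hmem t i).1 (hI hi.1)⟩
            rw [← hi.2]
            exact (hx i hi.1).2
          · refine Nat.div_lt_of_lt_mul ?_
            rw [mul_comm, ← hN]
            exact hut.trans ht
          · refine Nat.div_lt_of_lt_mul ?_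
            rw [mul_comm, ← hN]
            exact ht
      have h3 : I.card ≤ (I.image x).card * lam := h1.trans (by
        rw [← smul_eq_mul]
        exact sum_le_card_nsmul _ _ _ h2)
      have h4 : T * T * lam ≤ (I.image x).card * lam := by omega
      exact Nat.le_of_mul_le_mul_right h4 hlam0
    · intro y hy i hi
      exact (hy i hi).trans ht

/-- The lower bound with all parameters: `G` prime, `w = G ^ k`, `m = G ^ (k + 1) c`. -/
theorem lower2 (G k c T b : ℕ) (hG : G.Prime) (hk : 1 ≤ k) (hc : 1 ≤ c)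
    (hT : G ^ (k + 1) * (Nat.clog 2 (G ^ (k + 1)) + 1) ≤ 2 ^ T)
    (hb : ((G ^ (k + 1) * c * G ^ (k + 1)) ^ (T * T)) ^
      (G ^ (k + 1) * (Nat.clog 2 (G ^ (k + 1)) + 1)) < 2 ^ b) :
    (G ^ k).factorial ^ (G ^ (k + 1) * c) < r3 (G ^ k * (G ^ (k + 1) * c)) *
      (G ^ k * (G ^ (k + 1) * c)) ^ (G ^ (k + 1) * (b + T * T * (G ^ (k - 1) * c))) := by
  obtain ⟨f, hf, hf2⟩ := exists_design G k c hG hk
  have hG0 : 0 < G := hG.pos
  exact lower2_aux G (G ^ k) (G ^ (k + 1)) (G ^ (k + 1) * c) T b (G ^ (k - 1) * c) hG0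
    (Nat.one_le_pow _ _ hG0) (pow_succ G k) (Nat.mul_pos (Nat.one_le_pow _ _ hG0) hc)
    (Nat.mul_pos (Nat.one_le_pow _ _ hG0) hc) f hf hf2 hT hb

end Pool.Agent.TriSup
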