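import Pool.Agent.TriSup.Lower2

/-!
# The lower bound `r(3; q) ≥ (√q / (log q)^9)^q`
-/

namespace Pool.Agent.TriSup

open Filter Pool.Agent.TriGrow

/-- The lower bound with the parameters chosen up to `k` and `c`. -/
lemma poly_aux (q l G k c : ℕ) (hl : 1 ≤ l) (hq : q < 2 ^ l) (hG : G.Prime)
    (hG1 : 4 * l ^ 3 ≤ G) (hG2 : G ≤ 8 * l ^ 3) (hk : 1 ≤ k) (hc : 136 * l ^ 8 ≤ c)
    (hqc : G ^ (2 * k + 1) * c ≤ q) :
    (G ^ k).factorial ^ (G ^ (k + 1) * c) ≤ r3 q * 4 ^ q := by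
  have hG0 : 1 ≤ G := hG.pos
  have hc1 : 1 ≤ c := le_trans (Nat.mul_pos (by norm_num) (pow_pos hl 8)) hc
  have hNq : G ^ (k + 1) ≤ q := calc
    G ^ (k + 1) ≤ G ^ (2 * k + 1) := Nat.pow_le_pow_right hG0 (by omega)
    _ ≤ G ^ (2 * k + 1) * c := Nat.le_mul_of_pos_right _ hc1
    _ ≤ q := hqc
  have hGq : G ≤ q := calc
    G = G ^ 1 := (pow_one G).symm
    _ ≤ G ^ (k + 1) := Nat.pow_le_pow_right hG0 (by omega)
    _ ≤ q := hNq
  have hclog : Nat.clog 2 (G ^ (k + 1)) ≤ l := Nat.clog_le_of_le_pow (hNq.trans hq.le)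
  have hl2 : l + 1 ≤ 2 ^ l := Nat.lt_two_pow_self
  have hwm : G ^ k * (G ^ (k + 1) * c) = G ^ (2 * k + 1) * c := by ring
  have key := lower2 G k c (2 * l) (16 * l ^ 4 * G ^ (k + 1) + 1) hG hk hc1 ?_ ?_
  · rw [hwm] at key
    have hr : r3 (G ^ (2 * k + 1) * c) ≤ r3 q := r3_mono hqc
    obtain ⟨k', rfl⟩ : ∃ k', k = k' + 1 := ⟨k - 1, by omega⟩
    simp only [Nat.add_sub_cancel] at key
    have e1 : l * (G ^ (k' + 1 + 1) * (16 * l ^ 4 * G ^ (k' + 1 + 1) + 1)) ≤ q := by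
      have h1 : 1 ≤ l ^ 4 * G ^ (k' + 1 + 1) :=
        Nat.mul_pos (pow_pos hl 4) (Nat.pow_pos hG0)
      calc l * (G ^ (k' + 1 + 1) * (16 * l ^ 4 * G ^ (k' + 1 + 1) + 1))
          ≤ l * (G ^ (k' + 1 + 1) * (16 * l ^ 4 * G ^ (k' + 1 + 1) +
              l ^ 4 * G ^ (k' + 1 + 1))) := by gcongr
        _ = 17 * l ^ 5 * G * G ^ (2 * (k' + 1) + 1) := by ring
        _ ≤ 17 * l ^ 5 * (8 * l ^ 3) * G ^ (2 * (k' + 1) + 1) := by gcongr
        _ = G ^ (2 * (k' + 1) + 1) * (136 * l ^ 8) := by ring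
        _ ≤ G ^ (2 * (k' + 1) + 1) * c := by gcongr
        _ ≤ q := hqc
    have e2 : l * (G ^ (k' + 1 + 1) * (2 * l * (2 * l) * (G ^ k' * c))) ≤ q := by
      calc l * (G ^ (k' + 1 + 1) * (2 * l * (2 * l) * (G ^ k' * c)))
          = (4 * l ^ 3) * G ^ (2 * (k' + 1)) * c := by ring
        _ ≤ G * G ^ (2 * (k' + 1)) * c := by gcongr
        _ = G ^ (2 * (k' + 1) + 1) * c := by ring
        _ ≤ q := hqc
    have e3 : (G ^ (2 * (k' + 1) + 1) * c) ^ (G ^ (k' + 1 + 1) * (16 * l ^ 4 * G ^ (k' + 1 + 1) + 1 +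
        2 * l * (2 * l) * (G ^ k' * c))) ≤ 4 ^ q := by
      calc (G ^ (2 * (k' + 1) + 1) * c) ^ (G ^ (k' + 1 + 1) * (16 * l ^ 4 * G ^ (k' + 1 + 1) + 1 +
            2 * l * (2 * l) * (G ^ k' * c)))
          ≤ (2 ^ l) ^ (G ^ (k' + 1 + 1) * (16 * l ^ 4 * G ^ (k' + 1 + 1) + 1 +
            2 * l * (2 * l) * (G ^ k' * c))) := Nat.pow_le_pow_left (hqc.trans hq.le) _
        _ = 2 ^ (l * (G ^ (k' + 1 + 1) * (16 * l ^ 4 * G ^ (k' + 1 + 1) + 1)) +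
            l * (G ^ (k' + 1 + 1) * (2 * l * (2 * l) * (G ^ k' * c)))) := by
              rw [← pow_mul]; ring_nf
        _ ≤ 2 ^ (q + q) := Nat.pow_le_pow_right (by norm_num) (by omega)
        _ = 4 ^ q := by
              rw [← two_mul, pow_mul]; norm_num
    calc (G ^ (k' + 1)).factorial ^ (G ^ (k' + 1 + 1) * c)
        ≤ _ := key.le
      _ ≤ r3 q * 4 ^ q := Nat.mul_le_mul hr e3
  · calc G ^ (k + 1) * (Nat.clog 2 (G ^ (k + 1)) + 1)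
        ≤ 2 ^ l * 2 ^ l := Nat.mul_le_mul (hNq.trans hq.le) (by omega)
      _ = 2 ^ (2 * l) := by rw [← pow_add]; ring_nf
  · have h1 : G ^ (k + 1) * c * G ^ (k + 1) ≤ 2 ^ (2 * l) := by
      calc G ^ (k + 1) * c * G ^ (k + 1) = (G ^ (2 * k + 1) * c) * G := by ring
        _ ≤ q * q := Nat.mul_le_mul hqc hGq
        _ ≤ 2 ^ l * 2 ^ l := Nat.mul_le_mul hq.le hq.le
        _ = 2 ^ (2 * l) := by rw [← pow_add]; ring_nf
    have h2 : 2 * l * (2 * l * (2 * l) * (G ^ (k + 1) * (Nat.clog 2 (G ^ (k + 1)) + 1))) ≤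
        16 * l ^ 4 * G ^ (k + 1) := by
      have h3 : Nat.clog 2 (G ^ (k + 1)) + 1 ≤ 2 * l := by omega
      calc 2 * l * (2 * l * (2 * l) * (G ^ (k + 1) * (Nat.clog 2 (G ^ (k + 1)) + 1)))
          ≤ 2 * l * (2 * l * (2 * l) * (G ^ (k + 1) * (2 * l))) := by gcongr
        _ = 16 * l ^ 4 * G ^ (k + 1) := by ring
    calc ((G ^ (k + 1) * c * G ^ (k + 1)) ^ (2 * l * (2 * l))) ^
          (G ^ (k + 1) * (Nat.clog 2 (G ^ (k + 1)) + 1))
        ≤ ((2 ^ (2 * l)) ^ (2 * l * (2 * l))) ^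
          (G ^ (k + 1) * (Nat.clog 2 (G ^ (k + 1)) + 1)) := by gcongr
      _ = 2 ^ (2 * l * (2 * l * (2 * l) * (G ^ (k + 1) * (Nat.clog 2 (G ^ (k + 1)) + 1)))) := by
          rw [← pow_mul, ← pow_mul]
      _ ≤ 2 ^ (16 * l ^ 4 * G ^ (k + 1)) := Nat.pow_le_pow_right (by norm_num) h2
      _ < 2 ^ (16 * l ^ 4 * G ^ (k + 1) + 1) :=
          Nat.pow_lt_pow_right (by norm_num) (Nat.lt_succ_self _)

/-- Choice of `G`, `k` and `c`. -/
lemma poly_params (q l : ℕ) (hl : 1 ≤ l) (hbig : (8 * l ^ 3) ^ 3 * (136 * l ^ 8) ≤ q) :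
    ∃ G k c : ℕ, G.Prime ∧ 4 * l ^ 3 ≤ G ∧ G ≤ 8 * l ^ 3 ∧ 1 ≤ k ∧ 136 * l ^ 8 ≤ c ∧
      G ^ (2 * k + 1) * c ≤ q ∧ q < G ^ (2 * k + 1) * c + G ^ (2 * k + 1) ∧
      q < (G ^ k) ^ 2 * (G ^ 3 * (136 * l ^ 8)) := by
  obtain ⟨G, hG, hG1, hG2⟩ := Nat.exists_prime_lt_and_le_two_mul (4 * l ^ 3)
    (by positivity)
  have hG2' : G ≤ 8 * l ^ 3 := by omega
  have hG0 : 1 ≤ G := hG.pos
  have hc0 : 1 ≤ 136 * l ^ 8 := Nat.mul_pos (by norm_num) (pow_pos hl 8)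
  have hGc : 1 ≤ G * (136 * l ^ 8) := Nat.mul_pos hG0 hc0
  have hG3 : 2 ≤ G ^ 2 := by
    calc 2 ≤ G := hG.two_le
      _ = G ^ 1 := (pow_one G).symm
      _ ≤ G ^ 2 := Nat.pow_le_pow_right hG0 (by omega)
  have h1 : G ^ 2 ≤ q / (G * (136 * l ^ 8)) := by
    rw [Nat.le_div_iff_mul_le hGc]
    calc G ^ 2 * (G * (136 * l ^ 8)) = G ^ 3 * (136 * l ^ 8) := by ring
      _ ≤ (8 * l ^ 3) ^ 3 * (136 * l ^ 8) := by gcongr
      _ ≤ q := hbig
  obtain ⟨k, hk⟩ : ∃ k, k = Nat.log (G ^ 2) (q / (G * (136 * l ^ 8))) := ⟨_, rfl⟩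
  have hk1 : 1 ≤ k := by
    rw [hk]
    exact Nat.log_pos hG3 h1
  have hk2 : (G ^ 2) ^ k ≤ q / (G * (136 * l ^ 8)) := by
    rw [hk]
    exact Nat.pow_log_le_self _ (by have := Nat.pow_pos (n := 2) hG0; omega)
  have hk3 : q / (G * (136 * l ^ 8)) < (G ^ 2) ^ (k + 1) := by
    rw [hk]
    exact Nat.lt_pow_succ_log_self hG3 _
  have hk4 : G ^ (2 * k + 1) * (136 * l ^ 8) ≤ q := by
    rw [Nat.le_div_iff_mul_le hGc] at hk2
    calc G ^ (2 * k + 1) * (136 * l ^ 8) = (G ^ 2) ^ k * (G * (136 * l ^ 8)) := by ring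
      _ ≤ q := hk2
  have hk5 : q < (G ^ k) ^ 2 * (G ^ 3 * (136 * l ^ 8)) := by
    rw [Nat.div_lt_iff_lt_mul hGc] at hk3
    calc q < (G ^ 2) ^ (k + 1) * (G * (136 * l ^ 8)) := hk3
      _ = (G ^ k) ^ 2 * (G ^ 3 * (136 * l ^ 8)) := by ring
  have hP : 0 < G ^ (2 * k + 1) := Nat.pow_pos hG0
  refine ⟨G, k, q / G ^ (2 * k + 1), hG, hG1.le, hG2', hk1, ?_, Nat.mul_div_le _ _, ?_, hk5⟩
  · rw [Nat.le_div_iff_mul_le hP, mul_comm]
    exact hk4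
  · have := Nat.lt_mul_div_succ q hP
    rw [mul_add, mul_one] at this
    exact this

/-- The lower bound for all large `q`, in terms of `l = ⌊log₂ q⌋ + 1`. -/
lemma poly_main (q l : ℕ) (hl : 1 ≤ l) (hq : q < 2 ^ l)
    (hbig : (8 * l ^ 3) ^ 3 * (136 * l ^ 8) ≤ q) :
    ∃ W : ℝ, 1 ≤ W ∧ (q : ℝ) ≤ W ^ 2 * (69632 * (l : ℝ) ^ 17) ∧
      (W / (8 * Real.exp 1)) ^ q ≤ (r3 q : ℝ) := by
  obtain ⟨G, k, c, hG, hG1, hG2, hk, hc, hqc, hqc2, hw⟩ := poly_params q l hl hbig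
  have key := poly_aux q l G k c hl hq hG hG1 hG2 hk hc hqc
  have hG0 : 1 ≤ G := hG.pos
  have hw1 : 1 ≤ G ^ k := Nat.one_le_pow _ _ hG0
  have he : 0 < Real.exp 1 := Real.exp_pos 1
  have he1 : 1 ≤ Real.exp 1 := Real.one_le_exp (by norm_num)
  refine ⟨((G ^ k : ℕ) : ℝ), by exact_mod_cast hw1, ?_, ?_⟩
  · have h1 : q ≤ (G ^ k) ^ 2 * (69632 * l ^ 17) := by
      calc q ≤ (G ^ k) ^ 2 * (G ^ 3 * (136 * l ^ 8)) := hw.le
        _ ≤ (G ^ k) ^ 2 * ((8 * l ^ 3) ^ 3 * (136 * l ^ 8)) := by gcongr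
        _ = (G ^ k) ^ 2 * (69632 * l ^ 17) := by ring
    exact_mod_cast h1
  · obtain ⟨w, hwdef⟩ : ∃ w, w = G ^ k := ⟨_, rfl⟩
    obtain ⟨q', hq'⟩ : ∃ q', q' = G ^ (2 * k + 1) * c := ⟨_, rfl⟩
    have hwq : w * (G ^ (k + 1) * c) = q' := by rw [hwdef, hq']; ring
    rw [← hwdef] at key hw1 ⊢
    rw [← hq'] at hqc hqc2
    have hw0 : (0 : ℝ) < w := by exact_mod_cast hw1
    have hfac : ((w : ℝ) / Real.exp 1) ^ w ≤ (w.factorial : ℝ) := by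
      have h1 := Real.pow_div_factorial_le_exp (w : ℝ) hw0.le w
      rw [div_le_iff₀ (by exact_mod_cast w.factorial_pos)] at h1
      rw [div_pow, div_le_iff₀ (by positivity), ← Real.exp_nat_mul, mul_one, mul_comm]
      exact h1
    have h2 : ((w : ℝ) / Real.exp 1) ^ q' ≤ (r3 q : ℝ) * 4 ^ q := by
      calc ((w : ℝ) / Real.exp 1) ^ q' = (((w : ℝ) / Real.exp 1) ^ w) ^ (G ^ (k + 1) * c) := by
            rw [← pow_mul, hwq]
        _ ≤ (w.factorial : ℝ) ^ (G ^ (k + 1) * c) :=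
            pow_le_pow_left₀ (by positivity) hfac _
        _ ≤ (r3 q : ℝ) * 4 ^ q := by exact_mod_cast key
    have hwq2 : w ≤ q := by
      have hc1 : 1 ≤ c := le_trans (Nat.mul_pos (by norm_num) (pow_pos hl 8)) hc
      have h3 : 1 ≤ G ^ (k + 1) * c := Nat.mul_pos (Nat.one_le_pow _ _ hG0) hc1
      calc w ≤ w * (G ^ (k + 1) * c) := Nat.le_mul_of_pos_right _ h3
        _ = q' := hwq
        _ ≤ q := hqc
    have h4 : ((w : ℝ) / Real.exp 1) ^ (q - q') ≤ 2 ^ q := by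
      have h5 : l * (q - q') ≤ q := by
        have hl8 : l ≤ 136 * l ^ 8 := by
          calc l = l * 1 := (mul_one l).symm
            _ ≤ l * (136 * l ^ 7) :=
              Nat.mul_le_mul_left _ (Nat.mul_pos (by norm_num) (pow_pos hl 7))
            _ = 136 * l ^ 8 := by ring
        calc l * (q - q') ≤ l * G ^ (2 * k + 1) := Nat.mul_le_mul_left _ (by omega)
          _ ≤ (136 * l ^ 8) * G ^ (2 * k + 1) := Nat.mul_le_mul_right _ hl8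
          _ ≤ c * G ^ (2 * k + 1) := Nat.mul_le_mul_right _ hc
          _ = q' := by rw [hq', mul_comm]
          _ ≤ q := hqc
      have h6 : (w : ℝ) / Real.exp 1 ≤ 2 ^ l := by
        calc (w : ℝ) / Real.exp 1 ≤ w := div_le_self hw0.le he1
          _ ≤ q := by exact_mod_cast hwq2
          _ ≤ 2 ^ l := by exact_mod_cast hq.le
      calc ((w : ℝ) / Real.exp 1) ^ (q - q') ≤ ((2 : ℝ) ^ l) ^ (q - q') :=
            pow_le_pow_left₀ (by positivity) h6 _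
        _ = 2 ^ (l * (q - q')) := by rw [← pow_mul]
        _ ≤ 2 ^ q := pow_le_pow_right₀ (by norm_num) h5
    have h7 : ((w : ℝ) / Real.exp 1) ^ q ≤ (r3 q : ℝ) * 8 ^ q := by
      calc ((w : ℝ) / Real.exp 1) ^ q
          = ((w : ℝ) / Real.exp 1) ^ q' * ((w : ℝ) / Real.exp 1) ^ (q - q') := by
            rw [← pow_add]; congr 1; omega
        _ ≤ ((r3 q : ℝ) * 4 ^ q) * 2 ^ q := by gcongr
        _ = (r3 q : ℝ) * 8 ^ q := by
            rw [mul_assoc, ← mul_pow]; norm_num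
    have h8 : ((w : ℝ) / (8 * Real.exp 1)) ^ q = ((w : ℝ) / Real.exp 1) ^ q / 8 ^ q := by
      rw [← div_pow]
      congr 1
      field_simp
    rw [h8, div_le_iff₀ (by positivity)]
    exact h7

/-- `r(3; q) ≥ (√q / (log q)^9)^q` for all large `q`. -/
theorem growth_poly : ∀ᶠ q : ℕ in atTop,
    (√(q : ℝ) / (Real.log q) ^ 9) ^ q ≤ (r3 q : ℝ) := by
  have hlog : Tendsto (fun q : ℕ => Real.log (q : ℝ)) atTop atTop :=
    Real.tendsto_log_atTop.comp tendsto_natCast_atTop_atTop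
  have h1 : ∀ᶠ q : ℕ in atTop, (5000000000000 : ℝ) ≤ Real.log q :=
    hlog.eventually_ge_atTop _
  have h2 : ∀ᶠ q : ℕ in atTop, 69632 * (2 * Real.log (q : ℝ)) ^ 17 ≤ q := by
    have h3 : (fun x : ℝ => Real.log x ^ 17) =o[atTop] (fun x : ℝ => x) :=
      Real.isLittleO_pow_log_id_atTop
    have h4 := (h3.comp_tendsto (tendsto_natCast_atTop_atTop (R := ℝ))).bound
      (c := 1 / (69632 * 2 ^ 17)) (by norm_num)
    filter_upwards [h4, h1] with q h5 h6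
    simp only [Function.comp_apply, Real.norm_eq_abs] at h5
    rw [abs_of_nonneg (by positivity), abs_of_nonneg (by positivity)] at h5
    rw [mul_pow]
    linarith
  filter_upwards [h1, h2, eventually_ge_atTop 1] with q hL hbig hq1
  obtain ⟨l, hl⟩ : ∃ l, l = Nat.log 2 q + 1 := ⟨_, rfl⟩
  obtain ⟨L, hLdef⟩ : ∃ L, L = Real.log (q : ℝ) := ⟨_, rfl⟩
  rw [← hLdef] at hL hbig ⊢
  have hq0 : (0 : ℝ) < q := by exact_mod_cast hq1
  have hl1 : 1 ≤ l := by omega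
  have hql : q < 2 ^ l := by
    rw [hl]
    exact Nat.lt_pow_succ_log_self (by norm_num) q
  have hlL : (l : ℝ) ≤ 2 * L := by
    have h3 : (2 : ℝ) ^ (l - 1) ≤ q := by
      have := Nat.pow_log_le_self 2 (show q ≠ 0 by omega)
      have h4 : l - 1 = Nat.log 2 q := by omega
      rw [h4]
      exact_mod_cast this
    have h4 := Real.log_le_log (by positivity) h3
    rw [Real.log_pow, ← hLdef, Nat.cast_sub hl1, Nat.cast_one] at h4
    have h5 := Real.log_two_gt_d9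
    nlinarith
  have hbig' : (8 * l ^ 3) ^ 3 * (136 * l ^ 8) ≤ q := by
    have h3 : (((8 * l ^ 3) ^ 3 * (136 * l ^ 8) : ℕ) : ℝ) ≤ (q : ℝ) := by
      calc (((8 * l ^ 3) ^ 3 * (136 * l ^ 8) : ℕ) : ℝ) = 69632 * (l : ℝ) ^ 17 := by
            push_cast; ring
        _ ≤ 69632 * (2 * L) ^ 17 := by gcongr
        _ ≤ q := hbig
    exact_mod_cast h3
  obtain ⟨W, hW1, hW2, hW3⟩ := poly_main q l hl1 hql hbig'
  refine le_trans (pow_le_pow_left₀ (by positivity) ?_ q) hW3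
  have he : 0 < Real.exp 1 := Real.exp_pos 1
  have he2 : Real.exp 1 < 2.7182818286 := Real.exp_one_lt_d9
  have hW0 : 0 < W := by linarith
  have hL0 : 0 < L := by linarith
  rw [← pow_le_pow_iff_left₀ (by positivity) (by positivity) (two_ne_zero), div_pow, div_pow,
    Real.sq_sqrt hq0.le, div_le_div_iff₀ (by positivity) (by positivity)]
  have h3 : (8 * Real.exp 1) ^ 2 ≤ 473 := by nlinarith
  calc (q : ℝ) * (8 * Real.exp 1) ^ 2
      ≤ (W ^ 2 * (69632 * (l : ℝ) ^ 17)) * 473 := by gcongr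
    _ ≤ (W ^ 2 * (69632 * (2 * L) ^ 17)) * 473 := by gcongr
    _ = W ^ 2 * (L ^ 17 * (69632 * 131072 * 473)) := by ring
    _ ≤ W ^ 2 * (L ^ 17 * L) := by
        gcongr
        linarith
    _ = W ^ 2 * (L ^ 9) ^ 2 := by ring

end Pool.Agent.TriSup
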