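import Pool.Agent.TriSup.Lower

/-!
# The parameters for the constant `1 / 3`
-/

namespace Pool.Agent.TriSup

open Filter Pool.Agent.TriGrow

private lemma third_clog (w : ℕ) (hw : 1 ≤ w) : (Nat.clog 2 w : ℝ) + 1 ≤ 2 * Real.log w + 2 := by
  have h1 : ⌈Real.logb 2 (w : ℝ)⌉₊ = Nat.clog 2 w := by
    have := Real.natCeil_logb_natCast 2 w
    push_cast at this
    exact this
  have hw' : (1 : ℝ) ≤ w := by exact_mod_cast hw
  have h2 : 0 ≤ Real.logb 2 (w : ℝ) := Real.logb_nonneg (by norm_num) hw'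
  have h3 := Nat.ceil_lt_add_one h2
  rw [h1] at h3
  have h4 : Real.logb 2 (w : ℝ) ≤ 2 * Real.log w := by
    rw [Real.logb, div_le_iff₀ (Real.log_pos (by norm_num))]
    have h5 : 0 ≤ Real.log (w : ℝ) := Real.log_nonneg hw'
    have h6 : (0.6931471803 : ℝ) < Real.log 2 := Real.log_two_gt_d9
    nlinarith
  linarith

/-- The number of players grows like `w ^ 2`, up to logarithms. -/
lemma ell_le (δ : ℝ) (hδ : 0 < δ) : ∀ᶠ w : ℕ in atTop, (ell w : ℝ) ≤ (w : ℝ) ^ (2 + δ) := by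
  have h1 : ∀ᶠ x : ℝ in atTop, ‖Real.log x‖ ≤ 1 / 4 * ‖x ^ (δ / 4)‖ :=
    (isLittleO_log_rpow_atTop (by positivity)).def (by norm_num)
  have h2 : ∀ᶠ x : ℝ in atTop, (4 : ℝ) ≤ x ^ (δ / 4) :=
    (tendsto_rpow_atTop (by positivity)).eventually_ge_atTop 4
  filter_upwards [tendsto_natCast_atTop_atTop.eventually h1,
    tendsto_natCast_atTop_atTop.eventually h2, eventually_ge_atTop 1] with w h1 h2 hw
  have hw' : (1 : ℝ) ≤ w := by exact_mod_cast hw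
  have hw0 : (0 : ℝ) < w := by linarith
  have h3 : Real.log (w : ℝ) ≤ 1 / 4 * (w : ℝ) ^ (δ / 4) := by
    rw [Real.norm_of_nonneg (Real.log_nonneg hw'),
      Real.norm_of_nonneg (Real.rpow_nonneg hw0.le _)] at h1
    exact h1
  have h4 : (Nat.clog 2 w : ℝ) + 1 ≤ (w : ℝ) ^ (δ / 4) := by
    have := third_clog w hw
    linarith
  obtain ⟨L, hL⟩ : ∃ L : ℝ, L = (Nat.clog 2 w : ℝ) := ⟨_, rfl⟩
  have hL0 : 0 ≤ L := by rw [hL]; positivity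
  have h5 : (ell w : ℝ) = ((w : ℝ) * (L + 1)) ^ 2 * L + 1 := by
    rw [hL]
    unfold ell
    push_cast
    ring
  rw [← hL] at h4
  rw [h5]
  have h6 : (w : ℝ) ^ (2 + δ) = (w : ℝ) ^ 2 * (w : ℝ) ^ δ := by
    rw [Real.rpow_add hw0]
    norm_num
  have h7 : (w : ℝ) ^ δ = ((w : ℝ) ^ (δ / 4)) ^ 4 := by
    rw [← Real.rpow_natCast, ← Real.rpow_mul hw0.le]
    congr 1
    push_cast
    ring
  rw [h6, h7]
  have h8 : (L + 1) ^ 4 ≤ ((w : ℝ) ^ (δ / 4)) ^ 4 := by gcongr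
  have h9 : (1 : ℝ) ≤ (w : ℝ) ^ 2 := by nlinarith
  have h10 : (L + 1) ^ 2 * L + 1 ≤ (L + 1) ^ 4 := by
    nlinarith [mul_nonneg hL0 hL0, mul_nonneg (mul_nonneg hL0 hL0) hL0,
      mul_nonneg (mul_nonneg (mul_nonneg hL0 hL0) hL0) hL0]
  calc ((w : ℝ) * (L + 1)) ^ 2 * L + 1 ≤ ((w : ℝ) * (L + 1)) ^ 2 * L + (w : ℝ) ^ 2 := by linarith
    _ = (w : ℝ) ^ 2 * ((L + 1) ^ 2 * L + 1) := by ring
    _ ≤ (w : ℝ) ^ 2 * (L + 1) ^ 4 := by gcongr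
    _ ≤ (w : ℝ) ^ 2 * ((w : ℝ) ^ (δ / 4)) ^ 4 := by gcongr

private lemma third_core (δ : ℝ) (hδ : 0 < δ) (hδ' : δ ≤ 1 / 6) :
    ∀ᶠ q : ℕ in atTop, ∃ w m : ℕ, w * m ≤ q ∧
      (1 - δ) * (q : ℝ) ≤ (w : ℝ) * m ∧ (q : ℝ) ^ (1 / 3 - δ) ≤ w ∧
      ((w.factorial : ℝ) ^ m) ≤ (r3 (w * m) : ℝ) * (q : ℝ) ^ (δ * q) := by
  obtain ⟨a, ha⟩ : ∃ a : ℝ, a = 1 / 3 - δ / 2 := ⟨_, rfl⟩
  have ha0 : 0 < a := by rw [ha]; linarith
  have ht : Tendsto (fun q : ℕ => ⌈(q : ℝ) ^ a⌉₊) atTop atTop :=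
    tendsto_nat_ceil_atTop.comp ((tendsto_rpow_atTop ha0).comp tendsto_natCast_atTop_atTop)
  have h2 : ∀ᶠ x : ℝ in atTop, (16 / δ : ℝ) ≤ x ^ δ :=
    (tendsto_rpow_atTop hδ).eventually_ge_atTop _
  filter_upwards [ht.eventually (ell_le δ hδ), tendsto_natCast_atTop_atTop.eventually h2,
    eventually_ge_atTop 1] with q h1 h2 hq
  have hq' : (1 : ℝ) ≤ q := by exact_mod_cast hq
  have hq0 : (0 : ℝ) < q := by linarith
  obtain ⟨w, hw⟩ : ∃ w : ℕ, w = ⌈(q : ℝ) ^ a⌉₊ := ⟨_, rfl⟩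
  rw [← hw] at h1
  have hqa : (1 : ℝ) ≤ (q : ℝ) ^ a := Real.one_le_rpow hq' ha0.le
  have hw1 : (q : ℝ) ^ a ≤ w := by rw [hw]; exact Nat.le_ceil _
  have hw2 : (w : ℝ) ≤ 2 * (q : ℝ) ^ a := by
    have := Nat.ceil_lt_add_one (zero_le_one.trans hqa)
    rw [← hw] at this
    linarith
  have hwone : 1 ≤ w := by
    have : (1 : ℝ) ≤ w := hqa.trans hw1
    exact_mod_cast this
  have hw0 : (0 : ℝ) < w := by exact_mod_cast hwone
  have h16 : 16 * (q : ℝ) ^ (1 - δ) ≤ δ * q := by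
    have e1 : (q : ℝ) = (q : ℝ) ^ δ * (q : ℝ) ^ (1 - δ) := by
      rw [← Real.rpow_add hq0]
      norm_num
    have e2 : 16 ≤ δ * (q : ℝ) ^ δ := by
      rw [div_le_iff₀ hδ] at h2
      linarith
    have e3 : 0 ≤ (q : ℝ) ^ (1 - δ) := Real.rpow_nonneg hq0.le _
    calc 16 * (q : ℝ) ^ (1 - δ) ≤ (δ * (q : ℝ) ^ δ) * (q : ℝ) ^ (1 - δ) := by gcongr
      _ = δ * q := by rw [mul_assoc, ← e1]
  have hwδ : (w : ℝ) ≤ δ * q := by
    have e1 : (q : ℝ) ^ a ≤ (q : ℝ) ^ (1 - δ) :=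
      Real.rpow_le_rpow_of_exponent_le hq' (by rw [ha]; linarith)
    have e3 : 0 ≤ (q : ℝ) ^ (1 - δ) := Real.rpow_nonneg hq0.le _
    linarith
  have hwq : w ≤ q := by
    have : (w : ℝ) ≤ q := by nlinarith
    exact_mod_cast this
  have hm1 : 1 ≤ q / w := (Nat.one_le_div_iff (by omega)).2 hwq
  have hwm : w * (q / w) ≤ q := Nat.mul_div_le q w
  have hell : ((w * ell w : ℕ) : ℝ) ≤ δ * q := by
    have e1 : (w : ℝ) * (w : ℝ) ^ (2 + δ) = (w : ℝ) ^ (3 + δ) := by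
      rw [show (3 : ℝ) + δ = 1 + (2 + δ) by ring, Real.rpow_add hw0 1, Real.rpow_one]
    have e2 : (w : ℝ) ^ (3 + δ) ≤ (2 * (q : ℝ) ^ a) ^ (3 + δ) :=
      Real.rpow_le_rpow hw0.le hw2 (by linarith)
    have e3 : (2 * (q : ℝ) ^ a) ^ (3 + δ) = 2 ^ (3 + δ) * (q : ℝ) ^ (a * (3 + δ)) := by
      rw [Real.mul_rpow (by norm_num) (by positivity), ← Real.rpow_mul hq0.le]
    have e4 : (2 : ℝ) ^ (3 + δ) ≤ 16 := by
      have : (2 : ℝ) ^ (3 + δ) ≤ (2 : ℝ) ^ (4 : ℝ) :=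
        Real.rpow_le_rpow_of_exponent_le (by norm_num) (by linarith)
      norm_num at this
      exact this
    have e5 : (q : ℝ) ^ (a * (3 + δ)) ≤ (q : ℝ) ^ (1 - δ) := by
      refine Real.rpow_le_rpow_of_exponent_le hq' ?_
      rw [ha]
      nlinarith
    push_cast
    calc (w : ℝ) * (ell w : ℝ) ≤ (w : ℝ) * (w : ℝ) ^ (2 + δ) := by gcongr
      _ = (w : ℝ) ^ (3 + δ) := e1
      _ ≤ 2 ^ (3 + δ) * (q : ℝ) ^ (a * (3 + δ)) := e2.trans_eq e3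
      _ ≤ 16 * (q : ℝ) ^ (1 - δ) := by gcongr
      _ ≤ δ * q := h16
  refine ⟨w, q / w, hwm, ?_, ?_, ?_⟩
  · have e1 : q ≤ w * (q / w) + w := by
      have := Nat.div_add_mod q w
      have h3 := Nat.mod_lt q (show 0 < w by omega)
      omega
    have e2 : (q : ℝ) ≤ (w : ℝ) * ((q / w : ℕ) : ℝ) + w := by exact_mod_cast e1
    linarith
  · exact (Real.rpow_le_rpow_of_exponent_le hq' (by rw [ha]; linarith)).trans hw1
  · have e1 := lower_ell (q / w) w hm1 hwone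
    have e2 : ((w.factorial : ℝ)) ^ (q / w) ≤
        (r3 (w * (q / w)) : ℝ) * (((w * (q / w) : ℕ) : ℝ)) ^ (w * ell w) := by
      exact_mod_cast e1.le
    have e3 : (((w * (q / w) : ℕ) : ℝ)) ^ (w * ell w) ≤ (q : ℝ) ^ (δ * q) := by
      have f1 : (((w * (q / w) : ℕ) : ℝ)) ≤ q := by exact_mod_cast hwm
      calc (((w * (q / w) : ℕ) : ℝ)) ^ (w * ell w) ≤ (q : ℝ) ^ (w * ell w) := by gcongr
        _ = (q : ℝ) ^ ((w * ell w : ℕ) : ℝ) := (Real.rpow_natCast _ _).symm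
        _ ≤ (q : ℝ) ^ (δ * q) := Real.rpow_le_rpow_of_exponent_le hq' hell
    exact e2.trans (by gcongr)

theorem family_third (δ : ℝ) (hδ : 0 < δ) : ∀ᶠ q : ℕ in atTop, ∃ w m : ℕ, w * m ≤ q ∧
      (1 - δ) * (q : ℝ) ≤ (w : ℝ) * m ∧ (q : ℝ) ^ (1 / 3 - δ) ≤ w ∧
      ((w.factorial : ℝ) ^ m) ≤ (r3 (w * m) : ℝ) * (q : ℝ) ^ (δ * q) := by
  have hd : 0 < min δ (1 / 6) := lt_min hδ (by norm_num)
  have hd1 : min δ (1 / 6) ≤ δ := min_le_left _ _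
  filter_upwards [third_core (min δ (1 / 6)) hd (min_le_right _ _), eventually_ge_atTop 1]
    with q h hq
  obtain ⟨w, m, h1, h2, h3, h4⟩ := h
  have hq' : (1 : ℝ) ≤ q := by exact_mod_cast hq
  refine ⟨w, m, h1, le_trans ?_ h2, le_trans ?_ h3, h4.trans ?_⟩
  · gcongr
  · exact Real.rpow_le_rpow_of_exponent_le hq' (by linarith)
  · gcongr

end Pool.Agent.TriSup
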