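import Pool.Agent.TriGrow.Ramsey

/-!
# The classical upper bound `r(3; q) ≤ 3 q!`
-/

namespace Pool.Agent.TriSup

open Pool.Agent.TriGrow

/-- One step of the classical upper bound. (For `q = 0` it is false: `r3 0 = 1`, `r3 1 = 3`.) -/
lemma r3_succ_le (q : ℕ) (hq : 1 ≤ q) : r3 (q + 1) ≤ (q + 1) * (r3 q - 1) + 2 := by
  classical
  obtain ⟨R, hR⟩ : ∃ R, R = r3 q := ⟨_, rfl⟩
  have hF : Forces q R := by rw [hR]; exact forces_r3 q
  rw [← hR]
  refine Nat.sInf_le fun c => ?_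
  obtain ⟨v, -⟩ : ∃ v : Fin ((q + 1) * (R - 1) + 2), v = ⟨0, by omega⟩ := ⟨_, rfl⟩
  have hcard : (Finset.univ.erase v).card = (q + 1) * (R - 1) + 1 := by
    rw [Finset.card_erase_of_mem (Finset.mem_univ v), Finset.card_univ, Fintype.card_fin]
    omega
  have hmaps : ∀ x ∈ Finset.univ.erase v, c s(v, x) ∈ (Finset.univ : Finset (Fin (q + 1))) :=
    fun x _ => Finset.mem_univ _
  obtain ⟨i, -, hfib⟩ := Finset.exists_lt_card_fiber_of_mul_lt_card_of_maps_to (n := R - 1) hmaps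
    (by rw [hcard, Finset.card_univ, Fintype.card_fin]; omega)
  obtain ⟨T, hT⟩ : ∃ T, T = (Finset.univ.erase v).filter fun x => c s(v, x) = i := ⟨_, rfl⟩
  rw [← hT] at hfib
  by_cases hex : ∃ x ∈ T, ∃ y ∈ T, x ≠ y ∧ c s(x, y) = i
  · obtain ⟨x, hx, y, hy, hxy, h1⟩ := hex
    rw [hT, Finset.mem_filter] at hx hy
    refine ⟨v, x, y, (Finset.ne_of_mem_erase hx.1).symm, hxy, (Finset.ne_of_mem_erase hy.1).symm,
      ?_, ?_⟩
    · rw [hx.2, h1]
    · rw [hx.2, hy.2]
  · push Not at hex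
    have hRT : R ≤ T.card := by omega
    obtain ⟨g, hg⟩ : ∃ g : Fin R ↪o Fin ((q + 1) * (R - 1) + 2), ∀ a, g a ∈ T :=
      ⟨T.orderEmbOfCardLe hRT, fun a => T.orderEmbOfCardLe_mem hRT a⟩
    obtain ⟨c', hc'⟩ : ∃ c' : Sym2 (Fin R) → Fin q, ∀ e (h : c (e.map g) ≠ i),
        c' e = (finSuccAboveEquiv i).symm ⟨c (e.map g), h⟩ :=
      ⟨fun e => if h : c (e.map g) ≠ i then (finSuccAboveEquiv i).symm ⟨c (e.map g), h⟩
        else ⟨0, by omega⟩, fun e h => dif_pos h⟩
    have hne : ∀ a b : Fin R, a ≠ b → c ((s(a, b)).map g) ≠ i := by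
      intro a b hab
      rw [Sym2.map_mk]
      exact hex _ (hg a) _ (hg b) (fun h => hab (g.injective h))
    obtain ⟨x, y, z, h1, h2, h3, h4, h5⟩ := hF c'
    rw [hc' _ (hne x y h1), hc' _ (hne y z h2)] at h4
    rw [hc' _ (hne x y h1), hc' _ (hne x z h3)] at h5
    have h4' := congrArg Subtype.val ((finSuccAboveEquiv i).symm.injective h4)
    have h5' := congrArg Subtype.val ((finSuccAboveEquiv i).symm.injective h5)
    refine ⟨g x, g y, g z, fun h => h1 (g.injective h), fun h => h2 (g.injective h),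
      fun h => h3 (g.injective h), ?_, ?_⟩
    · simpa using h4'
    · simpa using h5'

lemma r3_one : r3 1 = 3 := by
  apply le_antisymm
  · refine Nat.sInf_le fun c => ⟨0, 1, 2, by decide, by decide, by decide, ?_, ?_⟩
    · exact Subsingleton.elim _ _
    · exact Subsingleton.elim _ _
  · refine Nat.succ_le_of_lt (lt_r3_of_not_forces fun h => ?_)
    obtain ⟨x, y, z, h1, h2, h3, -, -⟩ := h fun _ => 0
    have hx := x.2
    have hy := y.2
    have hz := z.2
    have h1' : (x : ℕ) ≠ y := fun h => h1 (Fin.ext h)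
    have h2' : (y : ℕ) ≠ z := fun h => h2 (Fin.ext h)
    have h3' : (x : ℕ) ≠ z := fun h => h3 (Fin.ext h)
    omega

/-- The classical upper bound. -/
theorem r3_le (q : ℕ) (hq : 1 ≤ q) : r3 q ≤ 3 * q.factorial := by
  induction q, hq using Nat.le_induction with
  | base => rw [r3_one]; simp
  | succ q hq ih =>
    have h1 := r3_succ_le q hq
    have h2 : 3 ≤ r3 q := by
      rw [← r3_one]
      exact r3_mono hq
    obtain ⟨R, hR⟩ : ∃ R, r3 q = R + 1 := ⟨r3 q - 1, by omega⟩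
    rw [hR] at h1 ih
    rw [Nat.factorial_succ]
    have h3 : (q + 1) * (R + 1) ≤ (q + 1) * (3 * q.factorial) := Nat.mul_le_mul_left _ ih
    calc r3 (q + 1) ≤ (q + 1) * (R + 1 - 1) + 2 := h1
      _ ≤ (q + 1) * (R + 1) := by
        rw [Nat.add_sub_cancel]
        nlinarith
      _ ≤ (q + 1) * (3 * q.factorial) := h3
      _ = 3 * ((q + 1) * q.factorial) := by ring

end Pool.Agent.TriSup
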